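import Pool.Agent.N697.PJ.ON

/-!
# Project SP (helper94), part CQN, by helper55: the order of the orthogonal group of a nondegenerate
form in `2 g + 1` variables over a finite field

By induction: there is an isotropic vector (Chevalley-Warning), hence a hyperbolic plane, and
`N697.PJ.step` is used for the orthogonal complement.
-/

set_option autoImplicit false
set_option linter.all false

open Matrix
open scoped Classical

namespace Pool.Agent.L0h55.SP

open Pool.Agent.N697.PJ (QP step)
open Pool.Agent.N352.PJ (Mt)

variable {F : Type} [Field F]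

/-- isotropic vectors in dimension at least `3` -/
lemma exists_isotropic [Finite F] {V : Type} [AddCommGroup V] [Module F V]
    [FiniteDimensional F V] (B : V →ₗ[F] V →ₗ[F] F) (hdim : 2 < Module.finrank F V) :
    ∃ x : V, x ≠ 0 ∧ B x x = 0 := by
  haveI := Fintype.ofFinite F
  let n := Module.finrank F V
  let b : Module.Basis (Fin n) F V := Module.finBasis F V
  let p : MvPolynomial (Fin n) F := ∑ i, ∑ j, MvPolynomial.C (B (b i) (b j)) *
    (MvPolynomial.X i * MvPolynomial.X j)
  have hp : p.totalDegree < Fintype.card (Fin n) := by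
    rw [Fintype.card_fin]
    refine lt_of_le_of_lt ?_ hdim
    refine MvPolynomial.totalDegree_finsetSum_le fun i _ => ?_
    refine MvPolynomial.totalDegree_finsetSum_le fun j _ => ?_
    refine (MvPolynomial.totalDegree_mul _ _).trans ?_
    rw [MvPolynomial.totalDegree_C, zero_add]
    refine (MvPolynomial.totalDegree_mul _ _).trans ?_
    rw [MvPolynomial.totalDegree_X, MvPolynomial.totalDegree_X]
  have hev : ∀ x : Fin n → F, MvPolynomial.eval x p = B (∑ i, x i • b i) (∑ i, x i • b i) := by
    intro x
    simp only [p, map_sum, map_mul, MvPolynomial.eval_C, MvPolynomial.eval_X, map_smul,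
      LinearMap.sum_apply, LinearMap.smul_apply, smul_eq_mul, Finset.mul_sum]
    rw [Finset.sum_comm]
    refine Finset.sum_congr rfl fun i _ => Finset.sum_congr rfl fun j _ => ?_
    ring
  obtain ⟨q, hq⟩ := CharP.exists F
  haveI := hq
  have hqp : q.Prime := (CharP.char_is_prime_or_zero F q).resolve_right (CharP.char_ne_zero_of_finite F q)
  have h1 := char_dvd_card_solutions q hp
  by_contra hcon
  push Not at hcon
  have h3 : Fintype.card {x : Fin n → F // MvPolynomial.eval x p = 0} = 1 := by
    rw [Fintype.card_eq_one_iff]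
    refine ⟨⟨0, by rw [hev]; simp⟩, ?_⟩
    rintro ⟨x, hx⟩
    apply Subtype.ext
    show x = 0
    rw [hev] at hx
    by_contra hx0
    refine hcon (∑ i, x i • b i) ?_ hx
    intro h4
    apply hx0
    funext i
    exact (Fintype.linearIndependent_iff.1 b.linearIndependent) x h4 i
  rw [h3] at h1
  exact hqp.one_lt.ne' (Nat.dvd_one.1 h1)

theorem anyV [Finite F] (h2 : (2 : F) ≠ 0) : ∀ (g : ℕ) (V : Type) [AddCommGroup V] [Module F V]
    [FiniteDimensional F V] (B : V →ₗ[F] V →ₗ[F] F), (∀ x y, B x y = B y x) →
    (∀ x, (∀ y, B x y = 0) → x = 0) → Module.finrank F V = 2 * g + 1 → QP B g := by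
  intro g
  induction g with
  | zero =>
    intro V _ _ _ B hs hnd hd
    haveI : Finite V := Module.finite_of_finite F
    obtain ⟨v, hv, hV⟩ := (finrank_eq_one_iff').1 hd
    have hvv : B v v ≠ 0 := by
      intro h
      apply hv
      apply hnd
      intro y
      obtain ⟨c, rfl⟩ := hV y
      rw [map_smul, h, smul_zero]
    refine ⟨inferInstance, hnd, ?_, ?_, ?_⟩
    · rw [Module.natCard_eq_pow_finrank (K := F), hd]
    · rw [mul_zero, pow_zero, Finite.card_le_one_iff_subsingleton]
      refine ⟨fun x y => ?_⟩
      have key : ∀ z : {x : V // B x x = 0}, z.1 = 0 := by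
        intro z
        obtain ⟨c, hc⟩ := hV z.1
        have h1 := z.2
        rw [← hc, map_smul, map_smul, LinearMap.smul_apply, smul_eq_mul, smul_eq_mul] at h1
        have h3 : c = 0 := by
          rcases mul_eq_zero.1 h1 with h | h
          · exact h
          · exact (mul_eq_zero.1 h).resolve_right hvv
        rw [← hc, h3, zero_smul]
      exact Subtype.ext ((key x).trans (key y).symm)
    · simp only [zero_mul, pow_zero, mul_one]
      have h1 : Nat.card {T : V →ₗ[F] V // ∀ x y, B (T x) (T y) = B x y} ≤ Nat.card Bool := by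
        refine Nat.card_le_card_of_injective (fun T => decide (T.1 v = v)) ?_
        intro T T' h
        have key : ∀ S : {T : V →ₗ[F] V // ∀ x y, B (T x) (T y) = B x y},
            S.1 v = v ∨ S.1 v = -v := by
          intro S
          obtain ⟨c, hc⟩ := hV (S.1 v)
          have h3 := S.2 v v
          rw [← hc, map_smul, map_smul, LinearMap.smul_apply, smul_eq_mul, smul_eq_mul] at h3
          have h4 : c * c = 1 := by
            apply mul_right_cancel₀ hvv
            rw [one_mul, mul_assoc]
            exact h3
          rcases mul_self_eq_one_iff.1 h4 with h5 | h5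
          · left
            rw [← hc, h5, one_smul]
          · right
            rw [← hc, h5, neg_smul, one_smul]
        have hne : -v ≠ v := by
          intro h5
          apply hv
          have h6 : (2 : F) • v = 0 := by
            rw [two_smul]
            nth_rewrite 1 [← h5]
            exact neg_add_cancel v
          exact (smul_eq_zero.1 h6).resolve_left h2
        have h5 : T.1 v = T'.1 v := by
          simp only [decide_eq_decide] at h
          rcases key T with h6 | h6 <;> rcases key T' with h7 | h7
          · rw [h6, h7]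
          · exact absurd (h.1 h6) (by rw [h7]; exact hne)
          · exact absurd (h.2 h7) (by rw [h6]; exact hne)
          · rw [h6, h7]
        apply Subtype.ext
        apply LinearMap.ext
        intro x
        obtain ⟨c, rfl⟩ := hV x
        rw [map_smul, map_smul, h5]
      refine h1.trans ?_
      simp
  | succ g ih =>
    intro V _ _ _ B hs hnd hd
    haveI : Finite V := Module.finite_of_finite F
    obtain ⟨x, hx0, hxx⟩ := exists_isotropic B (by omega)
    obtain ⟨y, hxy⟩ : ∃ y, B x y = 1 := by
      by_contra hcon
      push Not at hcon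
      apply hx0
      apply hnd
      intro y
      by_contra h
      exact hcon ((B x y)⁻¹ • y) (by rw [map_smul, smul_eq_mul, inv_mul_cancel₀ h])
    have hyx : B y x = 1 := by rw [hs]; exact hxy
    obtain ⟨z, hxz, hzz⟩ : ∃ z, B x z = 1 ∧ B z z = 0 := by
      refine ⟨y - (B y y / 2) • x, ?_, ?_⟩
      · simp [hxx, hxy]
      · simp only [map_sub, map_smul, LinearMap.sub_apply, LinearMap.smul_apply, smul_eq_mul, hxx,
          hxy, hyx]
        field_simp
        ring
    have hzx : B z x = 1 := by rw [hs]; exact hxz
    let φ : V →ₗ[F] F × F := (B x).prod (B z)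
    have hφ : Function.Surjective φ := by
      rintro ⟨a, b⟩
      refine ⟨b • x + a • z, ?_⟩
      simp [φ, hxx, hxz, hzx, hzz]
    let W := LinearMap.ker φ
    have hW : ∀ w : V, w ∈ W ↔ B x w = 0 ∧ B z w = 0 := by
      intro w
      simp [W, φ, LinearMap.mem_ker]
    have hfr : Module.finrank F W = 2 * g + 1 := by
      have h1 := LinearMap.finrank_range_add_finrank_ker φ
      rw [LinearMap.range_eq_top.2 hφ, finrank_top, Module.finrank_prod, Module.finrank_self] at h1
      show Module.finrank F (LinearMap.ker φ) = _
      omega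
    have hdec : ∀ v : V, v - B z v • x - B x v • z ∈ W := by
      intro v
      rw [hW]
      constructor
      · simp [hxx, hxz]
      · simp [hzx, hzz]
    let BW : W →ₗ[F] W →ₗ[F] F := (B.domRestrict W).compl₂ W.subtype
    have hBW : ∀ w w' : W, BW w w' = B w w' := fun w w' => rfl
    have hx' : ∀ w : W, B x (w : V) = 0 := fun w => ((hW w).1 w.2).1
    have hz' : ∀ w : W, B z (w : V) = 0 := fun w => ((hW w).1 w.2).2
    have hndW : ∀ w : W, (∀ w' : W, BW w w' = 0) → w = 0 := by
      intro w hw
      apply Subtype.ext
      apply hnd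
      intro v
      have h1 := hw ⟨_, hdec v⟩
      rw [hBW] at h1
      have h3 : B (w : V) x = 0 := by rw [hs]; exact hx' w
      have h4 : B (w : V) z = 0 := by rw [hs]; exact hz' w
      simp only [map_sub, map_smul, h3, h4, smul_zero, sub_zero] at h1
      exact h1
    refine step h2 B BW g (ih W BW (fun w w' => hs _ _) hndW hfr) hs x z W.subtype hxx hzz hxz
      (fun w w' => rfl) hx' hz' ?_
    intro v
    refine ⟨B z v, B x v, ⟨_, hdec v⟩, ?_⟩
    rw [Submodule.subtype_apply]
    simp only
    abel

/-- the number of isometries of a nondegenerate symmetric form in `2 g + 1` variables -/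
theorem onA [Finite F] (h2 : (2 : F) ≠ 0) {g : ℕ} {A : Mt g F} (hA : A.IsSymm)
    (hd : A.det ≠ 0) :
    Nat.card {M : Mt g F // Mᵀ * A * M = A} ≤ 2 * Nat.card F ^ (g * (2 * g + 1)) := by
  let B : (Fin (2 * g + 1) → F) →ₗ[F] (Fin (2 * g + 1) → F) →ₗ[F] F := Matrix.toLinearMap₂' F A
  have hB : ∀ x y, B x y = x ⬝ᵥ (A *ᵥ y) := fun x y => Matrix.toLinearMap₂'_apply' A x y
  have hs : ∀ x y, B x y = B y x := by
    intro x y
    rw [hB, hB, Matrix.dotProduct_mulVec, dotProduct_comm, ← Matrix.mulVec_transpose, hA.eq]
  have hnd : ∀ x, (∀ y, B x y = 0) → x = 0 := by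
    intro x hx
    have h1 : x ᵥ* A = 0 := by
      apply dotProduct_eq_zero
      intro w
      rw [← Matrix.dotProduct_mulVec, ← hB]
      exact hx w
    exact Matrix.eq_zero_of_vecMul_eq_zero hd h1
  refine le_trans ?_ (anyV h2 g _ B hs hnd (by simp)).grp
  haveI : Finite ((Fin (2 * g + 1) → F) →ₗ[F] (Fin (2 * g + 1) → F)) := DFunLike.finite _
  have key : ∀ M : Mt g F, Mᵀ * A * M = A →
      ∀ x y, B (Matrix.toLin' M x) (Matrix.toLin' M y) = B x y := by
    intro M hM x y
    rw [hB, hB, Matrix.toLin'_apply, Matrix.toLin'_apply]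
    conv_rhs => rw [← hM]
    rw [Matrix.mul_assoc, ← Matrix.mulVec_mulVec, ← Matrix.mulVec_mulVec,
      Matrix.dotProduct_mulVec x Mᵀ, Matrix.vecMul_transpose]
  refine Nat.card_le_card_of_injective
    (fun M => ⟨Matrix.toLin' M.1, key M.1 M.2⟩) ?_
  intro M M' h
  simp only [Subtype.mk.injEq] at h
  exact Subtype.ext (Matrix.toLin'.injective h)

end Pool.Agent.L0h55.SP
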