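import Pool.Agent.L0h94.SP.StmA
import Pool.Agent.N42.PF.CQ
import Pool.Agent.L0h55.SP.ONA

/-!
# Project SP (helper94), part CQN, by helper55: symmetric matrices `B` which are not distinguished
with respect to `A`, with characteristic polynomial `x h(x)`, over a finite field

Let `T = A⁻¹ B`. There is a vector `v` with `(v, A p(T) v) = top (c p)` for a unit `c` of
`κ[x] / (x h)`, whose norm is a square. If the pair is not distinguished then neither component of
`c` is a square. Hence there is a vector `ξ` with `(ξ, A p(T) ξ) = top (α p)`, where `α` is the same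
class for all `B`. There are four such `ξ` for every `B`, and the number of the pairs `(B, ξ)` is at
most the order of the orthogonal group of `A`.
-/

set_option autoImplicit false
set_option linter.all false

open Polynomial Matrix

namespace Pool.Agent.L0h55.SP

open Pool.Agent.N352.PJ (Mt Jm)
open Pool.Agent.N783.PQ (chp form Dist)
open Pool.Agent.N87.PJ (J_mul_apply)
open Pool.Agent.N42.PF (Lp Lp_apply Lp_move sa_pow' sa_poly' sq_of_norm det_Jm)

variable {g : ℕ} {F : Type} [Field F]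

/-! ### The ring `F[x] / (f)` -/

/-- the coefficient of `x ^ (2 g)` -/
noncomputable def topL (g : ℕ) {f : F[X]} (hm : f.Monic) : AdjoinRoot f →ₗ[F] F :=
  (Polynomial.lcoeff F (2 * g)).comp (AdjoinRoot.modByMonicHom hm)

section ring

variable {f : F[X]}

lemma topL_mk (hm : f.Monic) (hd : f.natDegree = 2 * g + 1) {p : F[X]} (hp : p.degree < f.degree) :
    topL g hm (AdjoinRoot.mk f p) = p.coeff (2 * g) := by
  show (AdjoinRoot.modByMonicHom hm (AdjoinRoot.mk f p)).coeff (2 * g) = _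
  rw [AdjoinRoot.modByMonicHom_mk, (modByMonic_eq_self_iff hm).2 hp]

/-- the trace form is nondegenerate -/
lemma topL_nd (hm : f.Monic) (hd : f.natDegree = 2 * g + 1) {c : AdjoinRoot f}
    (hc : ∀ y, topL g hm (c * y) = 0) : c = 0 := by
  set r : F[X] := AdjoinRoot.modByMonicHom hm c with hr
  have hrc : AdjoinRoot.mk f r = c := AdjoinRoot.mk_leftInverse hm c
  by_contra hc0
  have hr0 : r ≠ 0 := by
    intro h
    rw [h, map_zero] at hrc
    exact hc0 hrc.symm
  have hdeg : r.degree < f.degree := by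
    obtain ⟨p, rfl⟩ := AdjoinRoot.mk_surjective c
    rw [hr, AdjoinRoot.modByMonicHom_mk]
    exact degree_modByMonic_lt p hm
  have hnd : r.natDegree < 2 * g + 1 := by
    rw [← hd]
    exact natDegree_lt_natDegree hr0 hdeg
  obtain ⟨k, hk⟩ : ∃ k, 2 * g = r.natDegree + k := ⟨2 * g - r.natDegree, by omega⟩
  have h1 := hc (AdjoinRoot.mk f (X ^ k))
  rw [← hrc, ← map_mul, topL_mk hm hd] at h1
  · have h3 : (r * X ^ k).coeff (r.natDegree + k) = r.coeff r.natDegree := coeff_mul_X_pow _ _ _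
    rw [← hk, h1] at h3
    exact hr0 (leadingCoeff_eq_zero.1 h3.symm)
  · rw [degree_mul, degree_X_pow, degree_eq_natDegree hr0, degree_eq_natDegree hm.ne_zero, hd]
    norm_cast
    omega

end ring

section two

variable {h : F[X]}

/-- the value at `0` -/
noncomputable def pi0 (h : F[X]) : AdjoinRoot (X * h) →ₐ[F] F :=
  AdjoinRoot.liftAlgHom (X * h) (Algebra.ofId F F) 0 (by simp)

/-- the residue class modulo `h` -/
noncomputable def pi1 (h : F[X]) : AdjoinRoot (X * h) →ₐ[F] AdjoinRoot h :=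
  AdjoinRoot.liftAlgHom (X * h) (Algebra.ofId F (AdjoinRoot h)) (AdjoinRoot.root h) (by
    rw [eval₂_mul]
    have : eval₂ (↑(Algebra.ofId F (AdjoinRoot h))) (AdjoinRoot.root h) h = 0 :=
      AdjoinRoot.eval₂_root h
    rw [this, mul_zero])

lemma pi0_mk (p : F[X]) : pi0 h (AdjoinRoot.mk _ p) = p.eval 0 := rfl

lemma pi1_mk (p : F[X]) : pi1 h (AdjoinRoot.mk _ p) = AdjoinRoot.mk h p := by
  show eval₂ (AdjoinRoot.of h) (AdjoinRoot.root h) p = _
  rw [← AdjoinRoot.aeval_eq]
  rfl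

lemma cop (hi : Irreducible h) (hg : 1 ≤ g) (hd : h.natDegree = 2 * g) :
    IsCoprime (X : F[X]) h := by
  rw [Irreducible.coprime_iff_not_dvd Polynomial.irreducible_X]
  intro hdvd
  obtain ⟨c, hc'⟩ := hdvd
  have hX : (X : F[X]) ≠ 0 := X_ne_zero
  rcases hi.isUnit_or_isUnit hc' with h' | h'
  · exact Polynomial.not_isUnit_X h'
  · have h3 := natDegree_eq_zero_of_isUnit h'
    have hc0 : c ≠ 0 := by
      rintro rfl
      rw [mul_zero] at hc'
      exact hi.ne_zero hc'
    rw [hc', natDegree_mul hX hc0, natDegree_X, h3] at hd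
    omega

lemma pi_inj (hco : IsCoprime (X : F[X]) h) {c : AdjoinRoot (X * h)} (h0 : pi0 h c = 0)
    (h1 : pi1 h c = 0) : c = 0 := by
  obtain ⟨p, rfl⟩ := AdjoinRoot.mk_surjective c
  rw [pi0_mk] at h0
  rw [pi1_mk, AdjoinRoot.mk_eq_zero] at h1
  rw [AdjoinRoot.mk_eq_zero]
  refine hco.mul_dvd ?_ h1
  rw [X_dvd_iff, coeff_zero_eq_eval_zero]
  exact h0

lemma pi_surj (hco : IsCoprime (X : F[X]) h) (a : F) (y : AdjoinRoot h) :
    ∃ c : AdjoinRoot (X * h), pi0 h c = a ∧ pi1 h c = y := by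
  obtain ⟨u, w, huw⟩ := hco
  obtain ⟨q, rfl⟩ := AdjoinRoot.mk_surjective y
  refine ⟨AdjoinRoot.mk _ (C a * (w * h) + q * (u * X)), ?_, ?_⟩
  · rw [pi0_mk]
    have h1 : w * h = 1 - u * X := by rw [← huw]; ring
    rw [h1]
    simp
  · rw [pi1_mk]
    have h1 : C a * (w * h) + q * (u * X) = q + h * (C a * w - q * w) := by
      have h3 : u * X = 1 - w * h := by rw [← huw]; ring
      rw [h3]
      ring
    rw [h1, map_add, map_mul, AdjoinRoot.mk_self, zero_mul, add_zero]

lemma norm_pi (hm : h.Monic) (hco : IsCoprime (X : F[X]) h) (c : AdjoinRoot (X * h)) :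
    Algebra.norm F c = pi0 h c * Algebra.norm F (pi1 h c) := by
  haveI : Module.Finite F (AdjoinRoot h) := (AdjoinRoot.powerBasis' hm).finite
  let e : AdjoinRoot (X * h) ≃ₐ[F] F × AdjoinRoot h :=
    AlgEquiv.ofBijective (AlgHom.prod (pi0 h) (pi1 h)) (by
      constructor
      · rw [injective_iff_map_eq_zero]
        intro c hc
        have h1 : (pi0 h c, pi1 h c) = (0, 0) := hc
        exact pi_inj hco (congrArg Prod.fst h1) (congrArg Prod.snd h1)
      · rintro ⟨a, y⟩
        obtain ⟨c, h0, h1⟩ := pi_surj hco a y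
        exact ⟨c, Prod.ext h0 h1⟩)
  rw [← Algebra.norm_eq_of_algEquiv e c]
  have he : e c = (pi0 h c, pi1 h c) := rfl
  rw [he, Algebra.norm_apply, Algebra.norm_apply]
  have h3 : Algebra.lmul F (F × AdjoinRoot h) (pi0 h c, pi1 h c) =
      LinearMap.prodMap (Algebra.lmul F F (pi0 h c)) (Algebra.lmul F (AdjoinRoot h) (pi1 h c)) := by
    ext <;> simp
  rw [h3, LinearMap.det_prodMap]
  congr 1
  have h4 := Algebra.norm_apply F (pi0 h c)
  rw [Algebra.norm_self] at h4
  exact h4.symm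

end two

/-! ### Symmetric matrices -/

lemma aniso (h2 : (2 : F) ≠ 0) {S : Mt g F} (hS : S.IsSymm) (hne : S ≠ 0) :
    ∃ v : Fin (2 * g + 1) → F, v ⬝ᵥ (S *ᵥ v) ≠ 0 := by
  by_contra hcon
  push Not at hcon
  apply hne
  have h1 : ∀ i, S i i = 0 := by
    intro i
    have := hcon (Pi.single i 1)
    simpa using this
  ext i j
  have h4 := hcon (Pi.single i 1 + Pi.single j 1)
  rw [Matrix.mulVec_add, add_dotProduct, dotProduct_add, dotProduct_add] at h4
  simp only [Matrix.mulVec_single_one, single_dotProduct, Matrix.col_apply, one_mul] at h4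
  rw [h1 i, h1 j, hS.apply i j] at h4
  have h5 : (2 : F) * S i j = 0 := by rw [two_mul]; simpa using h4
  simpa using (mul_eq_zero.1 h5).resolve_left h2

/-- the Krylov matrix -/
def KM (T : Mt g F) (ξ : Fin (2 * g + 1) → F) : Mt g F :=
  Matrix.of fun i j => ((T ^ (j : ℕ)) *ᵥ ξ) i

lemma KM_gram {A T : Mt g F} (hTA : Tᵀ * A = A * T) (ξ : Fin (2 * g + 1) → F)
    (i j : Fin (2 * g + 1)) :
    ((KM T ξ)ᵀ * A * KM T ξ) i j = Lp A T ξ (X ^ ((i : ℕ) + (j : ℕ))) := by
  rw [Matrix.mul_mul_apply]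
  have h1 : (KM T ξ)ᵀ i = T ^ (i : ℕ) *ᵥ ξ := rfl
  have h3 : (KM T ξ)ᵀ j = T ^ (j : ℕ) *ᵥ ξ := rfl
  rw [h1, h3, ← Matrix.vecMul_transpose, ← Matrix.dotProduct_mulVec, Matrix.mulVec_mulVec,
    Matrix.mulVec_mulVec, sa_pow' hTA, Matrix.mul_assoc, ← pow_add, Lp_apply, map_pow, aeval_X]

lemma KM_mulVec (T : Mt g F) (ξ : Fin (2 * g + 1) → F) {p : F[X]} (hp : p.natDegree < 2 * g + 1) :
    KM T ξ *ᵥ (fun j => p.coeff j) = aeval T p *ᵥ ξ := by
  rw [aeval_eq_sum_range' hp, Matrix.sum_mulVec]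
  funext i
  rw [Finset.sum_apply, Matrix.mulVec, dotProduct, Finset.sum_range]
  refine Finset.sum_congr rfl fun j _ => ?_
  rw [Matrix.smul_mulVec, Pi.smul_apply, smul_eq_mul, mul_comm]
  rfl

/-- if the Krylov matrix is invertible then `ξ` is not killed by polynomials of small degree -/
lemma KM_ne {T : Mt g F} {ξ : Fin (2 * g + 1) → F} (hu : (KM T ξ).det ≠ 0) {p : F[X]}
    (hp : p.natDegree < 2 * g + 1) (h0 : aeval T p *ᵥ ξ = 0) : p = 0 := by
  rw [← KM_mulVec T ξ hp] at h0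
  have h1 := Matrix.eq_zero_of_mulVec_eq_zero hu h0
  ext j
  by_cases hj : j < 2 * g + 1
  · exact congrFun h1 ⟨j, hj⟩
  · rw [coeff_eq_zero_of_natDegree_lt (by omega), coeff_zero]

/-- the Krylov matrix determines the operator -/
lemma KM_inj {f : F[X]} (hmon : f.Monic) (hdeg : f.natDegree = 2 * g + 1) {T T' : Mt g F}
    {ξ ξ' : Fin (2 * g + 1) → F} (hT : aeval T f = 0) (hT' : aeval T' f = 0)
    (hu : (KM T ξ).det ≠ 0) (hM : KM T ξ = KM T' ξ') : T = T' ∧ ξ = ξ' := by
  have hcol : ∀ j : ℕ, j < 2 * g + 1 → (T ^ j) *ᵥ ξ = (T' ^ j) *ᵥ ξ' := by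
    intro j hj
    funext i
    exact congrFun (congrFun hM i) ⟨j, hj⟩
  have hξξ : ξ = ξ' := by
    have := hcol 0 (by omega)
    simpa using this
  have htop : ∀ (T : Mt g F) (ξ : Fin (2 * g + 1) → F), aeval T f = 0 →
      (T ^ (2 * g + 1)) *ᵥ ξ =
        -∑ k ∈ Finset.range (2 * g + 1), f.coeff k • ((T ^ k) *ᵥ ξ) := by
    intro T ξ hc
    have h1 : aeval T f *ᵥ ξ = 0 := by rw [hc, Matrix.zero_mulVec]
    rw [aeval_eq_sum_range, hdeg, Finset.sum_range_succ] at h1
    have h2 : f.coeff (2 * g + 1) = 1 := by rw [← hdeg]; exact hmon.coeff_natDegree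
    rw [h2, one_smul, Matrix.add_mulVec, Matrix.sum_mulVec] at h1
    have h3 : ∑ k ∈ Finset.range (2 * g + 1), (f.coeff k • T ^ k) *ᵥ ξ =
        ∑ k ∈ Finset.range (2 * g + 1), f.coeff k • ((T ^ k) *ᵥ ξ) :=
      Finset.sum_congr rfl fun k _ => by rw [Matrix.smul_mulVec]
    rw [h3] at h1
    exact eq_neg_of_add_eq_zero_right h1
  have hcol' : ∀ j : ℕ, j < 2 * g + 1 → (T ^ (j + 1)) *ᵥ ξ = (T' ^ (j + 1)) *ᵥ ξ' := by
    intro j hj
    by_cases hj' : j + 1 < 2 * g + 1
    · exact hcol _ hj'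
    · have : j + 1 = 2 * g + 1 := by omega
      rw [this, htop T ξ hT, htop T' ξ' hT']
      congr 1
      refine Finset.sum_congr rfl fun k hk => ?_
      rw [hcol k (Finset.mem_range.1 hk)]
  have hTM : T * KM T ξ = T' * KM T ξ := by
    ext i j
    have h1 : (T * KM T ξ) i j = ((T ^ ((j : ℕ) + 1)) *ᵥ ξ) i := by
      rw [pow_succ', ← Matrix.mulVec_mulVec]
      rfl
    have h2 : (T' * KM T ξ) i j = ((T' ^ ((j : ℕ) + 1)) *ᵥ ξ') i := by
      rw [hM, pow_succ', ← Matrix.mulVec_mulVec]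
      rfl
    rw [h1, h2, hcol' j j.2]
  refine ⟨?_, hξξ⟩
  have h1 := congrArg (· * (KM T ξ)⁻¹) hTM
  simp only [Matrix.mul_assoc, Matrix.mul_nonsing_inv _ (isUnit_iff_ne_zero.2 hu),
    Matrix.mul_one] at h1
  exact h1

/-! ### The class of a vector -/

/-- the vector `ξ` has the class `c` -/
def Cl {f : F[X]} (hm : f.Monic) (A T : Mt g F) (ξ : Fin (2 * g + 1) → F) (c : AdjoinRoot f) :
    Prop :=
  ∀ p : F[X], Lp A T ξ p = topL g hm (c * AdjoinRoot.mk f p)

section cls

variable {f : F[X]} {A T : Mt g F}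

/-- every vector has a class -/
lemma exists_cl (hm : f.Monic) (hd : f.natDegree = 2 * g + 1) (hf : aeval T f = 0)
    (v : Fin (2 * g + 1) → F) : ∃ c : AdjoinRoot f, Cl hm A T v c := by
  let rp : AdjoinRoot f →ₗ[F] F[X] := AdjoinRoot.modByMonicHom hm
  let ℓ : AdjoinRoot f →ₗ[F] F := (Lp A T v).comp rp
  have hℓ : ∀ p : F[X], ℓ (AdjoinRoot.mk f p) = Lp A T v p := by
    intro p
    show Lp A T v (AdjoinRoot.modByMonicHom hm (AdjoinRoot.mk f p)) = _
    rw [AdjoinRoot.modByMonicHom_mk]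
    have h3 := modByMonic_add_div p f
    conv_rhs => rw [← h3]
    rw [map_add]
    have h4 : Lp A T v (f * (p /ₘ f)) = 0 := by
      rw [Lp_apply, map_mul, hf, zero_mul, mul_zero, Matrix.zero_mulVec, dotProduct_zero]
    rw [h4, add_zero]
  haveI : FiniteDimensional F (AdjoinRoot f) := (AdjoinRoot.powerBasis' hm).finite
  let Φ : AdjoinRoot f →ₗ[F] Module.Dual F (AdjoinRoot f) :=
    (LinearMap.mul F (AdjoinRoot f)).compr₂ (topL g hm)
  have hΦ : ∀ c e, Φ c e = topL g hm (c * e) := fun c e => rfl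
  have hinj : Function.Injective Φ := by
    rw [← LinearMap.ker_eq_bot, LinearMap.ker_eq_bot']
    intro c hc0
    refine topL_nd hm hd fun y => ?_
    rw [← hΦ, hc0, LinearMap.zero_apply]
  have hsurj : Function.Surjective Φ :=
    (LinearMap.injective_iff_surjective_of_finrank_eq_finrank
      (Subspace.dual_finrank_eq).symm).1 hinj
  obtain ⟨c, hcℓ⟩ := hsurj ℓ
  refine ⟨c, fun p => ?_⟩
  rw [← hΦ, hcℓ, hℓ]

/-- change of the vector -/
lemma Cl.mul {hm : f.Monic} (hTA : Tᵀ * A = A * T) {ξ : Fin (2 * g + 1) → F} {c : AdjoinRoot f}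
    (hc : Cl hm A T ξ c) (r : F[X]) :
    Cl hm A T (aeval T r *ᵥ ξ) (c * AdjoinRoot.mk f r * AdjoinRoot.mk f r) := by
  intro p
  have h1 : Lp A T (aeval T r *ᵥ ξ) p = Lp A T ξ (r * p * r) := by
    rw [← Lp_move ξ hTA, Lp_apply]
  rw [h1, hc, map_mul (AdjoinRoot.mk f), map_mul (AdjoinRoot.mk f)]
  congr 1
  ring

/-- the norm of the class -/
lemma Cl.norm {hm : f.Monic} (hd : f.natDegree = 2 * g + 1) (hTA : Tᵀ * A = A * T) {x : F}
    (hdet : A.det = (-1) ^ g * x ^ 2) {ξ : Fin (2 * g + 1) → F} {c : AdjoinRoot f}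
    (hc : Cl hm A T ξ c) : Algebra.norm F c = (x * (KM T ξ).det) ^ 2 := by
  have hone : ((-1 : F) ^ g) * (-1) ^ g = 1 := by rw [← mul_pow]; simp
  let pb : PowerBasis F (AdjoinRoot f) := AdjoinRoot.powerBasis' hm
  have hdim : pb.dim = 2 * g + 1 := hd
  let b : Module.Basis (Fin (2 * g + 1)) F (AdjoinRoot f) := pb.basis.reindex (finCongr hdim)
  have hb : ∀ i, b i = AdjoinRoot.root f ^ (i : ℕ) := by
    intro i
    show (pb.basis.reindex (finCongr hdim)) i = _
    rw [Module.Basis.reindex_apply, pb.basis_eq_pow]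
    rfl
  set top := topL g hm with htopdef
  have htop : ∀ m ≤ 2 * g, top (AdjoinRoot.root f ^ m) = if m = 2 * g then 1 else 0 := by
    intro m hm'
    have e1 : AdjoinRoot.root f ^ m = AdjoinRoot.mk f (X ^ m) := by
      rw [map_pow, AdjoinRoot.mk_X]
    rw [e1, htopdef, topL_mk hm hd, coeff_X_pow]
    · simp only [eq_comm]
    · rw [degree_X_pow, degree_eq_natDegree hm.ne_zero, hd]
      exact_mod_cast (by omega : m < 2 * g + 1)
  let Gm : AdjoinRoot f → Mt g F := fun c => Matrix.of fun i j => top (c * (b i * b j))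
  have hG : Gm c = Gm 1 * Algebra.leftMulMatrix b c := by
    ext i j
    rw [Matrix.mul_apply]
    simp only [Gm, Matrix.of_apply, Algebra.leftMulMatrix_eq_repr_mul, one_mul]
    have h3 : c * b j = ∑ k, b.repr (c * b j) k • b k := (b.sum_repr _).symm
    have h4 : c * (b i * b j) = b i * (c * b j) := by ring
    rw [h4]
    conv_lhs => rw [h3]
    rw [Finset.mul_sum, map_sum]
    refine Finset.sum_congr rfl fun k _ => ?_
    rw [mul_smul_comm, map_smul, smul_eq_mul, mul_comm]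
  have hdetG : (Gm 1).det = (-1) ^ g := by
    have h3 : (Jm g F * Gm 1).det = 1 := by
      have h4 : ∀ i j, (Jm g F * Gm 1) i j =
          top (AdjoinRoot.root f ^ (((Fin.rev i : Fin (2 * g + 1)) : ℕ) + (j : ℕ))) := by
        intro i j
        rw [J_mul_apply]
        show top (1 * (b (Fin.rev i) * b j)) = _
        rw [hb, hb, one_mul, ← pow_add]
      have h5 : (Jm g F * Gm 1).BlockTriangular id := by
        intro i j hij
        have hij' : j < i := hij
        have h6 : (j : ℕ) < i := hij'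
        have h7 := i.2
        rw [h4, htop _ (by rw [Fin.val_rev]; omega), if_neg (by rw [Fin.val_rev]; omega)]
      rw [Matrix.det_of_upperTriangular h5]
      refine Finset.prod_eq_one fun i _ => ?_
      have h7 := i.2
      rw [h4, htop _ (by rw [Fin.val_rev]; omega), if_pos (by rw [Fin.val_rev]; omega)]
    rw [Matrix.det_mul, det_Jm] at h3
    calc (Gm 1).det = ((-1) ^ g * (-1) ^ g) * (Gm 1).det := by rw [hone, one_mul]
      _ = (-1) ^ g * ((-1) ^ g * (Gm 1).det) := by ring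
      _ = (-1) ^ g := by rw [h3, mul_one]
  have hMG : (KM T ξ)ᵀ * A * KM T ξ = Gm c := by
    ext i j
    rw [KM_gram hTA, hc]
    show _ = top (c * (b i * b j))
    have e1 : b i * b j = AdjoinRoot.mk f (X ^ ((i : ℕ) + (j : ℕ))) := by
      rw [hb, hb, ← pow_add, map_pow, AdjoinRoot.mk_X]
    rw [e1]
  have h3 := congrArg Matrix.det hMG
  rw [hG, Matrix.det_mul, Matrix.det_mul, Matrix.det_transpose, Matrix.det_mul, hdetG, hdet,
    ← Algebra.norm_eq_matrix_det b c] at h3
  calc Algebra.norm F c = ((-1) ^ g * (-1) ^ g) * Algebra.norm F c := by rw [hone, one_mul]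
    _ = (-1) ^ g * ((-1) ^ g * Algebra.norm F c) := by ring
    _ = (-1) ^ g * ((KM T ξ).det * ((-1) ^ g * x ^ 2) * (KM T ξ).det) := by rw [h3]
    _ = ((-1) ^ g * (-1) ^ g) * (x * (KM T ξ).det) ^ 2 := by ring
    _ = _ := by rw [hone, one_mul]

lemma topL_X (hm : f.Monic) (hd : f.natDegree = 2 * g + 1) {m : ℕ} (hm' : m ≤ 2 * g) :
    topL g hm (AdjoinRoot.mk f (X ^ m)) = if m = 2 * g then 1 else 0 := by
  rw [topL_mk hm hd, coeff_X_pow]
  · simp only [eq_comm]
  · rw [degree_X_pow, degree_eq_natDegree hm.ne_zero, hd]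
    exact_mod_cast (by omega : m < 2 * g + 1)

lemma Lp_red (hf : aeval T f = 0) (v : Fin (2 * g + 1) → F) (q r : F[X]) :
    Lp A T v (q + f * r) = Lp A T v q := by
  rw [map_add]
  have h4 : Lp A T v (f * r) = 0 := by
    rw [Lp_apply, map_mul, hf, zero_mul, mul_zero, Matrix.zero_mulVec, dotProduct_zero]
  rw [h4, add_zero]

/-- a component which is not isotropic -/
lemma comp_ne (h2 : (2 : F) ≠ 0) (hA : A.IsSymm) (hu : IsUnit A.det) (hTA : Tᵀ * A = A * T)
    {e : F[X]} (hP : aeval T e ≠ 0) : ∃ a : Fin (2 * g + 1) → F, Lp A T a e ≠ 0 := by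
  have hS : (A * aeval T e).IsSymm := by
    show (A * aeval T e)ᵀ = _
    rw [Matrix.transpose_mul, hA.eq, sa_poly' hTA]
  refine aniso h2 hS ?_
  intro h0
  apply hP
  have h1 := congrArg (A⁻¹ * ·) h0
  simp only [← Matrix.mul_assoc, Matrix.nonsing_inv_mul _ hu, Matrix.one_mul,
    Matrix.mul_zero] at h1
  exact h1

end cls

/-- the quotient of two elements which are not squares -/
lemma ns {K : Type} [Field K] [Finite K] (h2 : (2 : K) ≠ 0) {a b : K} (ha : ¬ IsSquare a)
    (hb : ¬ IsSquare b) : ∃ t : K, b * t * t = a := by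
  haveI := Fintype.ofFinite K
  have hcK : ringChar K ≠ 2 := by
    intro h
    apply h2
    have := ringChar.Nat.cast_ringChar (R := K)
    rw [h] at this
    exact_mod_cast this
  have ha0 : a ≠ 0 := by
    rintro rfl
    exact ha ⟨0, by simp⟩
  have hb0 : b ≠ 0 := by
    rintro rfl
    exact hb ⟨0, by simp⟩
  have h3 : ∀ c : K, c ≠ 0 → ¬ IsSquare c → c ^ (Fintype.card K / 2) = -1 := by
    intro c hc0 hc
    rcases FiniteField.pow_dichotomy hcK hc0 with h | h
    · exact absurd ((FiniteField.isSquare_iff hcK hc0).2 h) hc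
    · exact h
  have h4 : IsSquare (a * b) := by
    rw [FiniteField.isSquare_iff hcK (mul_ne_zero ha0 hb0), mul_pow, h3 a ha0 ha, h3 b hb0 hb]
    ring
  obtain ⟨t, ht⟩ := h4
  refine ⟨t / b, ?_⟩
  field_simp
  linear_combination -ht

/-! ### The main part -/

section main

variable {h : F[X]}

lemma deg_f (hm : h.Monic) (hd : h.natDegree = 2 * g) : (X * h).natDegree = 2 * g + 1 := by
  rw [natDegree_mul X_ne_zero hm.ne_zero, natDegree_X, hd]
  omega

/-- the class of a suitable vector of a pair which is not distinguished -/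
lemma key [Finite F] (h2 : (2 : F) ≠ 0) (hg : 1 ≤ g) (hm : h.Monic) (hi : Irreducible h)
    (hd : h.natDegree = 2 * g) {A B : Mt g F} (hA : A.IsSymm) (hB : B.IsSymm) {x : F} (hx : x ≠ 0)
    (hdet : A.det = (-1) ^ g * x ^ 2) (hc : chp A B = X * h) (hD : ¬ Dist A B) :
    ∃ (v : Fin (2 * g + 1) → F) (c : AdjoinRoot (X * h)),
      Cl (monic_X.mul hm) A (A⁻¹ * B) v c ∧ ¬ IsSquare (pi0 h c) ∧ ¬ IsSquare (pi1 h c) := by
  have hmf : (X * h).Monic := monic_X.mul hm
  have hdf := deg_f hm hd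
  have hu : IsUnit A.det := by
    rw [hdet]
    exact ((IsUnit.neg isUnit_one).pow g).mul ((isUnit_iff_ne_zero.2 hx).pow 2)
  have hco := cop hi hg hd
  set T : Mt g F := A⁻¹ * B with hT
  have hAT : A * T = B := by
    rw [hT, ← Matrix.mul_assoc, Matrix.mul_nonsing_inv _ hu, Matrix.one_mul]
  have hTA : Tᵀ * A = A * T := by
    have h1 := congrArg Matrix.transpose hAT
    rw [Matrix.transpose_mul, hA.eq, hB.eq] at h1
    rw [h1, hAT]
  have hcT : T.charpoly = X * h := hc
  have hf : aeval T (X * h) = 0 := by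
    rw [← hcT]
    exact Matrix.aeval_self_charpoly T
  obtain ⟨u, w, huw⟩ := id hco
  have hP0 : aeval T (w * h) ≠ 0 := by
    intro h0
    have h1 : aeval T u * T = 1 := by
      have h3 := congrArg (aeval T) huw
      rw [map_add, h0, add_zero, map_mul, aeval_X, map_one] at h3
      exact h3
    have h3 : T.det = 0 := by
      rw [Matrix.det_eq_sign_charpoly_coeff, hcT]
      simp
    have h4 := congrArg Matrix.det h1
    rw [Matrix.det_mul, h3, mul_zero, Matrix.det_one] at h4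
    exact zero_ne_one h4
  have hP1 : aeval T (u * X) ≠ 0 := by
    intro h0
    have h1 : aeval T (w * h) = 1 := by
      have h3 := congrArg (aeval T) huw
      rw [map_add, h0, zero_add, map_one] at h3
      exact h3
    have h3 : T = 0 := by
      have h4 : aeval T (X * (w * h)) = 0 := by
        have : X * (w * h) = w * (X * h) := by ring
        rw [this, map_mul, hf, mul_zero]
      rw [map_mul, h1, aeval_X, mul_one] at h4
      exact h4
    have h4 : X * h = X ^ (2 * g + 1) := by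
      rw [← hcT, h3, Matrix.charpoly_zero, Fintype.card_fin]
    have h5 : h = X ^ (2 * g) := by
      rw [pow_succ'] at h4
      exact mul_left_cancel₀ X_ne_zero h4
    have h6 : (X : F[X]) ∣ h := by
      rw [h5]
      exact dvd_pow_self _ (by omega)
    exact (Irreducible.coprime_iff_not_dvd Polynomial.irreducible_X).1 hco h6
  obtain ⟨a, ha⟩ := comp_ne h2 hA hu hTA hP0
  obtain ⟨b, hb⟩ := comp_ne h2 hA hu hTA hP1
  set v : Fin (2 * g + 1) → F := aeval T (w * h) *ᵥ a + aeval T (u * X) *ᵥ b with hv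
  have e00 : aeval T (w * h) *ᵥ v = aeval T (w * h) *ᵥ (aeval T (w * h) *ᵥ a) := by
    rw [hv, Matrix.mulVec_add]
    have : aeval T (w * h) *ᵥ aeval T (u * X) *ᵥ b = 0 := by
      rw [Matrix.mulVec_mulVec, ← map_mul]
      have h3 : w * h * (u * X) = w * u * (X * h) := by ring
      rw [h3, map_mul, hf, mul_zero, Matrix.zero_mulVec]
    rw [this, add_zero]
  have e11 : aeval T (u * X) *ᵥ v = aeval T (u * X) *ᵥ (aeval T (u * X) *ᵥ b) := by
    rw [hv, Matrix.mulVec_add]
    have : aeval T (u * X) *ᵥ aeval T (w * h) *ᵥ a = 0 := by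
      rw [Matrix.mulVec_mulVec, ← map_mul]
      have h3 : u * X * (w * h) = w * u * (X * h) := by ring
      rw [h3, map_mul, hf, mul_zero, Matrix.zero_mulVec]
    rw [this, zero_add]
  obtain ⟨c, hcl⟩ := exists_cl (A := A) hmf hdf hf v
  have idem : ∀ (z : Fin (2 * g + 1) → F) (e r : F[X]), e * e = e + X * h * r →
      Lp A T (aeval T e *ᵥ z) 1 = Lp A T z e := by
    intro z e r he
    have h1 : Lp A T (aeval T e *ᵥ z) 1 = Lp A T z (e * 1 * e) := by
      rw [← Lp_move z hTA, Lp_apply]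
    rw [h1, mul_one, he, Lp_red hf]
  have i0 : (w * h) * (w * h) = w * h + X * h * (-(u * w)) := by
    have h3 : w * h * (w * h) = w * h * (1 - u * X) := by
      congr 1
      rw [← huw]
      ring
    rw [h3]
    ring
  have i1 : (u * X) * (u * X) = u * X + X * h * (-(u * w)) := by
    have h3 : u * X * (u * X) = u * X * (1 - w * h) := by
      congr 1
      rw [← huw]
      ring
    rw [h3]
    ring
  have idm : ∀ (z : Fin (2 * g + 1) → F) (e r : F[X]), e * e = e + X * h * r →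
      aeval T e *ᵥ (aeval T e *ᵥ z) = aeval T e *ᵥ z := by
    intro z e r he
    rw [Matrix.mulVec_mulVec, ← map_mul, he, map_add, map_mul _ (X * h) r, hf, zero_mul, add_zero]
  have l0 : Lp A T v (w * h) ≠ 0 := by
    rw [← idem v _ _ i0, e00, idm _ _ _ i0, idem a _ _ i0]
    exact ha
  have l1 : Lp A T v (u * X) ≠ 0 := by
    rw [← idem v _ _ i1, e11, idm _ _ _ i1, idem b _ _ i1]
    exact hb
  have c0 : pi0 h c ≠ 0 := by
    intro h0
    apply l0
    have h3 : c * AdjoinRoot.mk (X * h) (w * h) = 0 := by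
      apply pi_inj hco
      · rw [map_mul, h0, zero_mul]
      · rw [map_mul, pi1_mk, map_mul, AdjoinRoot.mk_self, mul_zero, mul_zero]
    rw [hcl, h3, map_zero]
  have c1 : pi1 h c ≠ 0 := by
    intro h0
    apply l1
    have h3 : c * AdjoinRoot.mk (X * h) (u * X) = 0 := by
      apply pi_inj hco
      · rw [map_mul, pi0_mk]
        simp
      · rw [map_mul, h0, zero_mul]
    rw [hcl, h3, map_zero]
  haveI : Fact (Irreducible h) := ⟨hi⟩
  haveI : FiniteDimensional F (AdjoinRoot h) := (AdjoinRoot.powerBasis' hm).finite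
  haveI : Finite (AdjoinRoot h) := Module.finite_of_finite F
  have hN : pi0 h c * Algebra.norm F (pi1 h c) = (x * (KM T v).det) ^ 2 := by
    rw [← norm_pi hm hco, hcl.norm hdf hTA hdet]
  have hn0 : Algebra.norm F (pi1 h c) ≠ 0 := by
    rw [Ne, Algebra.norm_eq_zero_iff]
    exact c1
  -- both components are not squares at the same time
  have hboth : ∀ (t : F) (s : AdjoinRoot h), pi0 h c = t * t → pi1 h c = s * s → False := by
    intro t s ht hs
    apply hD
    have ht0 : t ≠ 0 := by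
      rintro rfl
      exact c0 (by rw [ht, mul_zero])
    have hs0 : s ≠ 0 := by
      rintro rfl
      exact c1 (by rw [hs, mul_zero])
    obtain ⟨r, hr0, hr1⟩ := pi_surj hco t⁻¹ s⁻¹
    obtain ⟨ρ, rfl⟩ := AdjoinRoot.mk_surjective r
    have h3 : c * AdjoinRoot.mk (X * h) ρ * AdjoinRoot.mk (X * h) ρ = 1 := by
      have h4 : c * AdjoinRoot.mk (X * h) ρ * AdjoinRoot.mk (X * h) ρ - 1 = 0 := by
        apply pi_inj hco
        · rw [map_sub, map_mul, map_mul, hr0, ht, map_one]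
          field_simp
          ring
        · rw [map_sub, map_mul, map_mul, hr1, hs, map_one]
          field_simp
          ring
      exact sub_eq_zero.1 h4
    have h5 := hcl.mul hTA ρ
    rw [h3] at h5
    refine ⟨aeval T ρ *ᵥ v, fun m hm' => ?_⟩
    have h6 : form A B m (aeval T ρ *ᵥ v) = Lp A T (aeval T ρ *ᵥ v) (X ^ m) := by
      rw [Lp_apply, map_pow, aeval_X]
      rfl
    rw [h6, h5, one_mul, topL_X hmf hdf hm']
  refine ⟨v, c, hcl, ?_, ?_⟩
  · rintro ⟨t, ht⟩
    have ht0 : t ≠ 0 := by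
      rintro rfl
      exact c0 (by rw [ht, mul_zero])
    obtain ⟨s, hs⟩ := sq_of_norm h2 c1 (d := x * (KM T v).det / t) (by
      rw [ht] at hN
      field_simp
      linear_combination hN)
    exact hboth t s ht hs.symm
  · rintro ⟨s, hs⟩
    have h3 : Algebra.norm F (pi1 h c) = Algebra.norm F s * Algebra.norm F s := by
      rw [hs, map_mul]
    have h4 : Algebra.norm F s ≠ 0 := by
      intro h5
      rw [h3, h5, mul_zero] at hn0
      exact hn0 rfl
    refine hboth (x * (KM T v).det / Algebra.norm F s) s ?_ hs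
    rw [h3] at hN
    field_simp
    linear_combination hN

/-- the four vectors of the same class -/
lemma four (h2 : (2 : F) ≠ 0) (hg : 1 ≤ g) (hm : h.Monic) (hi : Irreducible h)
    (hd : h.natDegree = 2 * g) {A T : Mt g F} (hTA : Tᵀ * A = A * T) (hf : aeval T (X * h) = 0)
    {ξ : Fin (2 * g + 1) → F} {α : AdjoinRoot (X * h)} (hξ : Cl (monic_X.mul hm) A T ξ α)
    (hu : (KM T ξ).det ≠ 0) :
    ∃ v : Bool × Bool → (Fin (2 * g + 1) → F), Function.Injective v ∧
      ∀ s, Cl (monic_X.mul hm) A T (v s) α := by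
  have hco := cop hi hg hd
  obtain ⟨u, w, huw⟩ := hco
  set e : F[X] := w * h - u * X with he
  have hneg : ∀ ζ, Cl (monic_X.mul hm) A T ζ α → Cl (monic_X.mul hm) A T (-ζ) α := by
    intro ζ hζ
    have h3 := hζ.mul hTA (-1)
    have h4 : α * AdjoinRoot.mk (X * h) (-1) * AdjoinRoot.mk (X * h) (-1) = α := by
      rw [map_neg, map_one]
      ring
    rw [h4] at h3
    have h5 : aeval T (-1 : F[X]) *ᵥ ζ = -ζ := by
      rw [map_neg, map_one, Matrix.neg_mulVec, Matrix.one_mulVec]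
    rwa [h5] at h3
  have hee : AdjoinRoot.mk (X * h) e * AdjoinRoot.mk (X * h) e = 1 := by
    have h3 : e * e = 1 + X * h * (-(4 * (u * w))) := by
      have : e * e = (u * X + w * h) ^ 2 - 4 * (u * w) * (X * h) := by rw [he]; ring
      rw [this, huw]; ring
    rw [← map_mul, h3, map_add, map_mul _ (X * h), AdjoinRoot.mk_self, zero_mul, add_zero, map_one]
  set η : Fin (2 * g + 1) → F := aeval T e *ᵥ ξ with hη
  have hηc : Cl (monic_X.mul hm) A T η α := by
    have h3 := hξ.mul hTA e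
    rw [mul_assoc, hee, mul_one] at h3
    exact h3
  have h1z : ξ ≠ 0 := by
    intro h0
    have h3 : aeval T (1 : F[X]) *ᵥ ξ = 0 := by rw [h0, Matrix.mulVec_zero]
    exact one_ne_zero (KM_ne hu (by rw [natDegree_one]; omega) h3)
  have two_v : ∀ ζ : Fin (2 * g + 1) → F, (2 : F) • ζ = 0 → ζ = 0 := fun ζ hζ =>
    (smul_eq_zero.1 hζ).resolve_left h2
  have haev2 : ∀ p : F[X], aeval T (2 * p) *ᵥ ξ = (2 : F) • (aeval T p *ᵥ ξ) := by
    intro p
    rw [two_mul p, map_add, Matrix.add_mulVec, two_smul]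
  have n3 : η ≠ ξ := by
    intro h3
    have e1 : e = 1 - 2 * (u * X) := by rw [he, ← huw]; ring
    have h4 : aeval T (u * X) *ᵥ ξ = 0 := by
      rw [hη, e1, map_sub, map_one, Matrix.sub_mulVec, Matrix.one_mulVec, sub_eq_self, haev2] at h3
      exact two_v _ h3
    have h5 : aeval T (w * h) *ᵥ ξ = ξ := by
      have : w * h = 1 - u * X := by rw [← huw]; ring
      rw [this, map_sub, map_one, Matrix.sub_mulVec, Matrix.one_mulVec, h4, sub_zero]
    have h6 : aeval T (X : F[X]) *ᵥ ξ = 0 := by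
      conv_lhs => rw [← h5]
      rw [Matrix.mulVec_mulVec, ← map_mul]
      have e5 : X * (w * h) = w * (X * h) := by ring
      rw [e5, map_mul, hf, mul_zero, Matrix.zero_mulVec]
    exact X_ne_zero (KM_ne hu (by rw [natDegree_X]; omega) h6)
  have n4 : η ≠ -ξ := by
    intro h3
    have e1 : e = 2 * (w * h) - 1 := by rw [he, ← huw]; ring
    have h4 : aeval T (w * h) *ᵥ ξ = 0 := by
      rw [hη, e1, map_sub, map_one, Matrix.sub_mulVec, Matrix.one_mulVec, sub_eq_neg_self,
        haev2] at h3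
      exact two_v _ h3
    have h5 : aeval T (u * X) *ᵥ ξ = ξ := by
      have : u * X = 1 - w * h := by rw [← huw]; ring
      rw [this, map_sub, map_one, Matrix.sub_mulVec, Matrix.one_mulVec, h4, sub_zero]
    have h6 : aeval T h *ᵥ ξ = 0 := by
      conv_lhs => rw [← h5]
      rw [Matrix.mulVec_mulVec, ← map_mul]
      have e5 : h * (u * X) = u * (X * h) := by ring
      rw [e5, map_mul, hf, mul_zero, Matrix.zero_mulVec]
    exact hm.ne_zero (KM_ne hu (by rw [hd]; omega) h6)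
  have n1 : ξ ≠ -ξ := by
    intro h3
    apply h1z
    apply two_v
    rw [two_smul]
    nth_rewrite 2 [h3]
    exact add_neg_cancel _
  have n2 : η ≠ -η := by
    intro h3
    have h4 : η = 0 := by
      apply two_v
      rw [two_smul]
      nth_rewrite 2 [h3]
      exact add_neg_cancel _
    have h5 : aeval T (e * e) *ᵥ ξ = ξ := by
      have h3 : e * e = 1 + X * h * (-(4 * (u * w))) := by
        have : e * e = (u * X + w * h) ^ 2 - 4 * (u * w) * (X * h) := by rw [he]; ring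
        rw [this, huw]; ring
      rw [h3, map_add, map_mul _ (X * h), hf, zero_mul, add_zero, map_one, Matrix.one_mulVec]
    rw [map_mul, ← Matrix.mulVec_mulVec, ← hη, h4, Matrix.mulVec_zero] at h5
    exact h1z h5.symm
  have n5 : ξ ≠ -η := fun h3 => n4 (by rw [h3, neg_neg])
  have n6 : -ξ ≠ -η := fun h3 => n3 (neg_injective h3).symm
  refine ⟨fun st => match st with
      | (false, false) => ξ
      | (false, true) => η
      | (true, false) => -ξ
      | (true, true) => -η, ?_, ?_⟩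
  · rintro ⟨_ | _, _ | _⟩ ⟨_ | _, _ | _⟩ hst
    · rfl
    · exact absurd hst.symm n3
    · exact absurd hst n1
    · exact absurd hst n5
    · exact absurd hst n3
    · rfl
    · exact absurd hst n4
    · exact absurd hst n2
    · exact absurd hst.symm n1
    · exact absurd hst.symm n4
    · rfl
    · exact absurd hst n6
    · exact absurd hst.symm n5
    · exact absurd hst.symm n2
    · exact absurd hst.symm n6
    · rfl
  · rintro ⟨_ | _, _ | _⟩
    · exact hξ
    · exact hηc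
    · exact hneg _ hξ
    · exact hneg _ hηc

end main

/-- **part CQN** -/
theorem t_CQN : Pool.Agent.L0h94.SP.S_CQN := by
  intro g F _ _ hg h2 h hm hi hd A hA hdet
  classical
  obtain ⟨x, hx, hdet⟩ := hdet
  have hu : IsUnit A.det := by
    rw [hdet]
    exact ((IsUnit.neg isUnit_one).pow g).mul ((isUnit_iff_ne_zero.2 hx).pow 2)
  have hmf : (X * h).Monic := monic_X.mul hm
  have hdf := deg_f hm hd
  have hco := cop hi hg hd
  haveI : Fact (Irreducible h) := ⟨hi⟩
  haveI : FiniteDimensional F (AdjoinRoot h) := (AdjoinRoot.powerBasis' hm).finite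
  haveI : Finite (AdjoinRoot h) := Module.finite_of_finite F
  have h2E : (2 : AdjoinRoot h) ≠ 0 := by
    intro h0
    apply h2
    apply (algebraMap F (AdjoinRoot h)).injective
    rw [map_ofNat, map_zero, h0]
  rcases isEmpty_or_nonempty {B : Mt g F // B.IsSymm ∧ chp A B = X * h ∧ ¬ Dist A B} with
    hE | ⟨⟨B₀, hB₀, hc₀, hD₀⟩⟩
  · rw [Nat.card_of_isEmpty, mul_zero]
    exact Nat.zero_le _
  obtain ⟨v₀, α, hα, hα0, hα1⟩ := key h2 hg hm hi hd hA hB₀ hx hdet hc₀ hD₀
  have hAT : ∀ B : Mt g F, A * (A⁻¹ * B) = B := by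
    intro B
    rw [← Matrix.mul_assoc, Matrix.mul_nonsing_inv _ hu, Matrix.one_mul]
  have hTA : ∀ B : Mt g F, B.IsSymm → (A⁻¹ * B)ᵀ * A = A * (A⁻¹ * B) := by
    intro B hB
    have h1 := congrArg Matrix.transpose (hAT B)
    rw [Matrix.transpose_mul, hA.eq, hB.eq] at h1
    rw [h1, hAT]
  have hfT : ∀ B : Mt g F, chp A B = X * h → aeval (A⁻¹ * B) (X * h) = 0 := by
    intro B hc
    rw [← hc]
    exact Matrix.aeval_self_charpoly (A⁻¹ * B)
  have hNα : Algebra.norm F α ≠ 0 := by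
    rw [norm_pi hm hco]
    refine mul_ne_zero ?_ ?_
    · intro h0
      exact hα0 ⟨0, by rw [h0, mul_zero]⟩
    · rw [Ne, Algebra.norm_eq_zero_iff]
      intro h0
      exact hα1 ⟨0, by rw [h0, mul_zero]⟩
  have hKM : ∀ (B : Mt g F) (ξ : Fin (2 * g + 1) → F), B.IsSymm → Cl hmf A (A⁻¹ * B) ξ α →
      (KM (A⁻¹ * B) ξ).det ≠ 0 := by
    intro B ξ hB hξ h0
    apply hNα
    rw [hξ.norm hdf (hTA B hB) hdet, h0, mul_zero]
    ring
  let P : Type := {p : Mt g F × (Fin (2 * g + 1) → F) // p.1.IsSymm ∧ chp A p.1 = X * h ∧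
    Cl hmf A (A⁻¹ * p.1) p.2 α}
  let D : Type := {B : Mt g F // B.IsSymm ∧ chp A B = X * h ∧ ¬ Dist A B}
  let O : Type := {M : Mt g F // Mᵀ * A * M = A}
  haveI : Finite (Mt g F) := inferInstance
  have hPO : Nat.card P ≤ Nat.card O := by
    have hu₀ : IsUnit (KM (A⁻¹ * B₀) v₀).det := isUnit_iff_ne_zero.2 (hKM B₀ v₀ hB₀ hα)
    set M₀ := KM (A⁻¹ * B₀) v₀ with hM₀
    have hH : ∀ p : P, (KM (A⁻¹ * p.1.1) p.1.2)ᵀ * A * KM (A⁻¹ * p.1.1) p.1.2 =
        M₀ᵀ * A * M₀ := by
      intro p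
      ext i j
      rw [KM_gram (hTA _ p.2.1), hM₀, KM_gram (hTA _ hB₀), p.2.2.2, hα]
    let f' : P → O := fun p => ⟨KM (A⁻¹ * p.1.1) p.1.2 * M₀⁻¹, by
      rw [Matrix.transpose_mul]
      calc (M₀⁻¹)ᵀ * (KM (A⁻¹ * p.1.1) p.1.2)ᵀ * A * (KM (A⁻¹ * p.1.1) p.1.2 * M₀⁻¹) =
          (M₀⁻¹)ᵀ * ((KM (A⁻¹ * p.1.1) p.1.2)ᵀ * A * KM (A⁻¹ * p.1.1) p.1.2) * M₀⁻¹ := by
            simp only [Matrix.mul_assoc]
        _ = (M₀⁻¹)ᵀ * (M₀ᵀ * A * M₀) * M₀⁻¹ := by rw [hH p]
        _ = ((M₀⁻¹)ᵀ * M₀ᵀ) * A * (M₀ * M₀⁻¹) := by simp only [Matrix.mul_assoc]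
        _ = A := by
            rw [Matrix.mul_nonsing_inv _ hu₀, ← Matrix.transpose_mul,
              Matrix.mul_nonsing_inv _ hu₀, Matrix.transpose_one, Matrix.one_mul,
              Matrix.mul_one]⟩
    refine Nat.card_le_card_of_injective f' ?_
    intro p p' hpp
    have h3 : KM (A⁻¹ * p.1.1) p.1.2 * M₀⁻¹ = KM (A⁻¹ * p'.1.1) p'.1.2 * M₀⁻¹ :=
      congrArg Subtype.val hpp
    have h4 : KM (A⁻¹ * p.1.1) p.1.2 = KM (A⁻¹ * p'.1.1) p'.1.2 := by
      have h5 := congrArg (· * M₀) h3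
      simp only [Matrix.mul_assoc, Matrix.nonsing_inv_mul _ hu₀, Matrix.mul_one] at h5
      exact h5
    obtain ⟨h5, h6⟩ := KM_inj hmf hdf (hfT _ p.2.2.1) (hfT _ p'.2.2.1)
      (hKM _ _ p.2.1 p.2.2.2) h4
    have h7 : p.1.1 = p'.1.1 := by rw [← hAT p.1.1, h5, hAT]
    exact Subtype.ext (Prod.ext h7 h6)
  have hch : ∀ B : D, ∃ v : Bool × Bool → (Fin (2 * g + 1) → F), Function.Injective v ∧
      ∀ s, Cl hmf A (A⁻¹ * B.1) (v s) α := by
    rintro ⟨B, hB, hc, hD⟩
    obtain ⟨v, c, hcl, hc0, hc1⟩ := key h2 hg hm hi hd hA hB hx hdet hc hD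
    obtain ⟨t, ht⟩ := ns h2 hα0 hc0
    obtain ⟨s, hs⟩ := ns h2E hα1 hc1
    obtain ⟨r, hr0, hr1⟩ := pi_surj hco t s
    obtain ⟨ρ, rfl⟩ := AdjoinRoot.mk_surjective r
    have h3 : c * AdjoinRoot.mk (X * h) ρ * AdjoinRoot.mk (X * h) ρ = α := by
      have h4 : c * AdjoinRoot.mk (X * h) ρ * AdjoinRoot.mk (X * h) ρ - α = 0 := by
        apply pi_inj hco
        · rw [map_sub, map_mul, map_mul, hr0, ht, sub_self]
        · rw [map_sub, map_mul, map_mul, hr1, hs, sub_self]
      exact sub_eq_zero.1 h4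
    have h5 := hcl.mul (hTA B hB) ρ
    rw [h3] at h5
    exact four h2 hg hm hi hd (hTA B hB) (hfT B hc) h5 (hKM B _ hB h5)
  choose v hvi hv using hch
  have hDP : Nat.card (D × (Bool × Bool)) ≤ Nat.card P := by
    let f' : D × (Bool × Bool) → P := fun q =>
      ⟨(q.1.1, v q.1 q.2), q.1.2.1, q.1.2.2.1, hv q.1 q.2⟩
    refine Nat.card_le_card_of_injective f' ?_
    rintro ⟨B, st⟩ ⟨B', st'⟩ hq
    have h3 : (B.1, v B st) = (B'.1, v B' st') := congrArg Subtype.val hq
    have h4 : B = B' := Subtype.ext (congrArg Prod.fst h3)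
    subst h4
    have h5 : v B st = v B st' := congrArg Prod.snd h3
    rw [hvi B h5]
  rw [Nat.card_prod, Nat.card_prod] at hDP
  have h3 : Nat.card Bool = 2 := by simp
  rw [h3] at hDP
  have h4 := onA h2 hA hu.ne_zero
  have h5 : Nat.card D * (2 * 2) ≤ 2 * Nat.card F ^ (g * (2 * g + 1)) := hDP.trans (hPO.trans h4)
  show 2 * Nat.card D ≤ _
  omega

end Pool.Agent.L0h55.SP
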