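import Mathlib

/-!
# Project SP (helper94), part GPX, by helper55: norms for cubic polynomials, points near a root
-/

set_option autoImplicit false
set_option linter.all false

open Polynomial Matrix

namespace Pool.Agent.L0h55.SP.G

/-! ### Norms -/

/-- the matrix of the multiplication by `q` modulo the cubic polynomial `f` -/
noncomputable def M3 {R : Type} [CommRing R] (f q : R[X]) : Matrix (Fin 3) (Fin 3) R :=
  Matrix.of fun i k => ((q * X ^ (i : ℕ)) %ₘ f).coeff k

lemma M3_map {R S : Type} [CommRing R] [CommRing S] (φ : R →+* S) {f : R[X]} (hm : f.Monic)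
    (q : R[X]) : (M3 (f.map φ) (q.map φ)).det = φ (M3 f q).det := by
  rw [RingHom.map_det]
  congr 1
  ext i j
  simp only [M3, Matrix.of_apply, RingHom.mapMatrix_apply, Matrix.map_apply]
  rw [← coeff_map, Polynomial.map_modByMonic _ hm, Polynomial.map_mul, Polynomial.map_pow,
    map_X]

lemma norm_gen {K A : Type} [Field K] [CommRing A] [Algebra K A] {f : K[X]} (hm : f.Monic)
    (hd : f.natDegree = 3) (b : Module.Basis (Fin 3) K A) (x : A) (hb : ∀ i, b i = x ^ (i : ℕ))
    (hx : aeval x f = 0) (q : K[X]) : Algebra.norm K (aeval x q) = (M3 f q).det := by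
  rw [Algebra.norm_eq_matrix_det b, ← Matrix.det_transpose]
  congr 1
  ext i k
  rw [Matrix.transpose_apply, Algebra.leftMulMatrix_eq_repr_mul, hb]
  simp only [M3, Matrix.of_apply]
  have h1 : aeval x q * x ^ (i : ℕ) = ∑ l : Fin 3,
      ((q * X ^ (i : ℕ)) %ₘ f).coeff l • b l := by
    have h2 : aeval x q * x ^ (i : ℕ) = aeval x ((q * X ^ (i : ℕ)) %ₘ f) := by
      rw [aeval_modByMonic_eq_self_of_root hx, map_mul, map_pow, aeval_X]
    rw [h2, aeval_eq_sum_range' (n := 3), Finset.sum_range]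
    · refine Finset.sum_congr rfl fun l _ => ?_
      rw [hb]
    · refine lt_of_lt_of_eq (Polynomial.natDegree_modByMonic_lt _ hm ?_) hd
      intro h0
      rw [h0, natDegree_one] at hd
      omega
  rw [h1, map_sum, Finsupp.finsetSum_apply, Finset.sum_eq_single k]
  · rw [map_smul, Finsupp.smul_apply, Module.Basis.repr_self, Finsupp.single_eq_same, smul_eq_mul,
      mul_one]
  · intro l _ hl
    rw [map_smul, Finsupp.smul_apply, Module.Basis.repr_self, Finsupp.single_eq_of_ne hl.symm,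
      smul_zero]
  · intro h'
    exact absurd (Finset.mem_univ _) h'

lemma norm_adj {K : Type} [Field K] {f : K[X]} (hm : f.Monic) (hd : f.natDegree = 3) (q : K[X]) :
    Algebra.norm K (AdjoinRoot.mk f q) = (M3 f q).det := by
  have hdim : (AdjoinRoot.powerBasis' hm).dim = 3 := hd
  rw [← AdjoinRoot.aeval_eq]
  refine norm_gen hm hd ((AdjoinRoot.powerBasis' hm).basis.reindex (finCongr hdim))
    (AdjoinRoot.root f) ?_ ?_ q
  · intro i
    rw [Module.Basis.reindex_apply, (AdjoinRoot.powerBasis' hm).basis_eq_pow]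
    rfl
  · rw [AdjoinRoot.aeval_eq, AdjoinRoot.mk_self]

/-- a double root -/
lemma det_double {R : Type} [Field R] (n e : R) (q : R[X]) :
    (M3 ((X - C n) ^ 2 * (X - C e)) q).det = q.eval n ^ 2 * q.eval e := by
  set f : R[X] := (X - C n) ^ 2 * (X - C e) with hf
  have hm : f.Monic := ((monic_X_sub_C n).pow 2).mul (monic_X_sub_C e)
  have hd : f.degree = 3 := by
    rw [hf, degree_mul, degree_pow, degree_X_sub_C, degree_X_sub_C]
    rfl
  -- reduction to a polynomial of degree at most two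
  set r := q %ₘ f with hr
  obtain ⟨a, b, c, habc⟩ : ∃ a b c : R, r = C a * X ^ 2 + C b * X + C c := by
    have h1 : r.degree < 3 := by
      rw [← hd]
      exact degree_modByMonic_lt _ hm
    refine ⟨r.coeff 2, r.coeff 1, r.coeff 0, ?_⟩
    have h3 : r.natDegree ≤ 2 := by
      by_cases h0 : r = 0
      · rw [h0]; simp
      · have := (natDegree_lt_iff_degree_lt h0).2 (by exact_mod_cast h1 : r.degree < ((3 : ℕ) : WithBot ℕ))
        omega
    exact eq_quadratic_of_degree_le_two (natDegree_le_iff_degree_le.1 h3)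
  have hq : q = r + f * (q /ₘ f) := (modByMonic_add_div q f).symm
  have hfn : f.eval n = 0 := by rw [hf]; simp
  have hfe : f.eval e = 0 := by rw [hf]; simp
  have e1 : q.eval n = a * n ^ 2 + b * n + c := by
    conv_lhs => rw [hq, habc]
    simp [hfn]
  have e2 : q.eval e = a * e ^ 2 + b * e + c := by
    conv_lhs => rw [hq, habc]
    simp [hfe]
  -- the remainders
  have hf' : f = X ^ 3 - C (2 * n + e) * X ^ 2 + C (n ^ 2 + 2 * n * e) * X - C (n ^ 2 * e) := by
    rw [hf]
    simp only [C_add, C_mul, C_pow, map_ofNat]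
    ring
  have hq' : q = C a * X ^ 2 + C b * X + C c + f * (q /ₘ f) := by rw [← habc]; exact hq
  have u0 : (q * X ^ 0) %ₘ f = C a * X ^ 2 + C b * X + C c := by
    rw [pow_zero, mul_one, ← habc]
  have u1 : (q * X ^ 1) %ₘ f = C (b + a * (2 * n + e)) * X ^ 2 +
      C (c - a * (n ^ 2 + 2 * n * e)) * X + C (a * (n ^ 2 * e)) := by
    refine (div_modByMonic_unique (q /ₘ f * X + C a) _ hm ⟨?_, ?_⟩).2
    · simp only [C_add, C_mul, C_pow, C_sub, map_ofNat] at hf' ⊢
      linear_combination (-X) * hq' + C a * hf'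
    · rw [hd]
      exact degree_quadratic_lt
  have u2 : (q * X ^ 2) %ₘ f =
      C (c - a * (n ^ 2 + 2 * n * e) + (b + a * (2 * n + e)) * (2 * n + e)) * X ^ 2 +
      C (a * (n ^ 2 * e) - (b + a * (2 * n + e)) * (n ^ 2 + 2 * n * e)) * X +
      C ((b + a * (2 * n + e)) * (n ^ 2 * e)) := by
    refine (div_modByMonic_unique (q /ₘ f * X ^ 2 + C a * X + C (b + a * (2 * n + e))) _ hm
      ⟨?_, ?_⟩).2
    · simp only [C_add, C_mul, C_pow, C_sub, map_ofNat] at hf' ⊢
      linear_combination (-X ^ 2) * hq' + (C a * X + (C b + C a * (2 * C n + C e))) * hf'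
    · rw [hd]
      exact degree_quadratic_lt
  rw [e1, e2, Matrix.det_fin_three]
  simp only [M3, Matrix.of_apply, Fin.val_zero, Fin.val_one, Fin.val_two, u0, u1, u2]
  simp only [coeff_add, coeff_C_mul, coeff_X_pow, coeff_C, coeff_X]
  norm_num
  ring

/-- scaling of the roots -/
lemma sep_scale {K : Type} [Field K] {f : K[X]} (hf : f.Separable) {D : K} (hD : D ≠ 0) :
    (f.scaleRoots D).Separable := by
  have h1 : f.scaleRoots D = C (D ^ f.natDegree) * f.comp (C D⁻¹ * X) := by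
    ext i
    rw [coeff_scaleRoots, coeff_C_mul, comp_C_mul_X_coeff]
    by_cases hi : i ≤ f.natDegree
    · obtain ⟨j, hj⟩ : ∃ j, f.natDegree = i + j := ⟨f.natDegree - i, by omega⟩
      rw [hj, Nat.add_sub_cancel_left]
      have e : D ^ (i + j) * (f.coeff i * D⁻¹ ^ i) = f.coeff i * D ^ j * (D * D⁻¹) ^ i := by
        rw [mul_pow, pow_add]
        ring
      rw [e, mul_inv_cancel₀ hD, one_pow, mul_one]
    · rw [coeff_eq_zero_of_natDegree_lt (by omega)]
      simp
  obtain ⟨u, v, huv⟩ := hf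
  have h3 := congrArg (fun p => p.comp (C D⁻¹ * X)) huv
  simp only [add_comp, mul_comp, one_comp] at h3
  have h4 : derivative (f.comp (C D⁻¹ * X)) = C D⁻¹ * (derivative f).comp (C D⁻¹ * X) := by
    rw [derivative_comp]
    simp
  rw [h1]
  refine Separable.unit_mul ?_ ?_
  · exact isUnit_C.2 (isUnit_iff_ne_zero.2 (pow_ne_zero _ hD))
  · refine ⟨u.comp (C D⁻¹ * X), v.comp (C D⁻¹ * X) * C D, ?_⟩
    rw [h4]
    have h5 : v.comp (C D⁻¹ * X) * C D * (C D⁻¹ * (derivative f).comp (C D⁻¹ * X)) =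
        v.comp (C D⁻¹ * X) * (derivative f).comp (C D⁻¹ * X) * (C D * C D⁻¹) := by ring
    rw [h5, ← C_mul, mul_inv_cancel₀ hD, C_1, mul_one]
    exact h3

/-! ### Valuations -/

section val

variable {K Γ : Type} [Field K] [LinearOrderedCommGroupWithZero Γ] (v : Valuation K Γ)

lemma near_root {H c ϑ d z s : K} (hH : v H = 1) (hd : v d = 1) (hz0 : z ≠ 0) (hz : v z < 1)
    (hc : v (c - ϑ) ≤ v z ^ 3) (hs : v (H * d - s ^ 2) < 1) :
    v ((c + d * z ^ 2 - ϑ) * H - (s * z) ^ 2) < v ((c + d * z ^ 2 - ϑ) * H) := by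
  have hz1 : 0 < v z := by
    rw [zero_lt_iff]
    exact (Valuation.ne_zero_iff v).2 hz0
  have hz2 : 0 < v z ^ 2 := pow_pos hz1 2
  have hlt : v (c - ϑ) < v z ^ 2 := by
    refine lt_of_le_of_lt hc ?_
    rw [pow_succ]
    exact mul_lt_of_lt_one_right hz2 hz
  have h1 : v (d * z ^ 2) = v z ^ 2 := by rw [map_mul, hd, one_mul, map_pow]
  have h2 : v (c + d * z ^ 2 - ϑ) = v z ^ 2 := by
    have e : c + d * z ^ 2 - ϑ = (c - ϑ) + d * z ^ 2 := by ring
    rw [e, Valuation.map_add_eq_of_lt_right v (by rw [h1]; exact hlt), h1]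
  rw [map_mul v (c + d * z ^ 2 - ϑ) H, h2, hH, mul_one]
  have e : (c + d * z ^ 2 - ϑ) * H - (s * z) ^ 2 = (c - ϑ) * H + z ^ 2 * (H * d - s ^ 2) := by ring
  rw [e]
  refine lt_of_le_of_lt (v.map_add _ _) (max_lt ?_ ?_)
  · rw [map_mul, hH, mul_one]
    exact hlt
  · rw [map_mul, map_pow]
    exact mul_lt_of_lt_one_right hz2 hs

lemma far_root {H c ϑ d z s : K} (hH : v H = 1) (hc : v (c - ϑ) = 1) (hz : v z < 1)
    (hd : v d ≤ 1) (hs : v ((c - ϑ) * H - s ^ 2) < 1) :
    v ((c + d * z ^ 2 - ϑ) * H - s ^ 2) < v ((c + d * z ^ 2 - ϑ) * H) := by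
  have h1 : v (d * z ^ 2) < 1 := by
    rw [map_mul, map_pow]
    refine lt_of_le_of_lt (mul_le_mul' hd le_rfl) ?_
    rw [one_mul]
    exact pow_lt_one₀ zero_le hz two_ne_zero
  have h2 : v (c + d * z ^ 2 - ϑ) = 1 := by
    have e : c + d * z ^ 2 - ϑ = (c - ϑ) + d * z ^ 2 := by ring
    rw [e, Valuation.map_add_eq_of_lt_left v (by rw [hc]; exact h1), hc]
  rw [map_mul v (c + d * z ^ 2 - ϑ) H, h2, hH, mul_one]
  have e : (c + d * z ^ 2 - ϑ) * H - s ^ 2 = ((c - ϑ) * H - s ^ 2) + d * z ^ 2 * H := by ring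
  rw [e]
  refine lt_of_le_of_lt (v.map_add _ _) (max_lt hs ?_)
  rw [map_mul, hH, mul_one]
  exact h1

/-- from the class of `H = α t²` to the class of `α` -/
lemma sq_of {y α t H s : K} (ht : t ≠ 0) (hH : H = α * t ^ 2) (h : v (y * H - s ^ 2) < v (y * H)) :
    ∃ s : K, v (y * α - s ^ 2) < v (y * α) := by
  refine ⟨s / t, ?_⟩
  have ht2 : v (t ^ 2) ≠ 0 := (Valuation.ne_zero_iff v).2 (pow_ne_zero 2 ht)
  have e1 : y * α - (s / t) ^ 2 = (y * H - s ^ 2) / t ^ 2 := by
    rw [hH]
    field_simp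
  have e2 : y * α = y * H / t ^ 2 := by
    rw [hH]
    field_simp
  rw [e1, e2, map_div₀, map_div₀, div_eq_mul_inv, div_eq_mul_inv]
  exact mul_lt_mul_of_pos_right h (zero_lt_iff.2 (inv_ne_zero ht2))

end val

/-! ### Hensel's lemma -/

lemma hensel {R : Type} [CommRing R] (w : Ideal R) [hw : w.IsMaximal] (G : R[X]) (c0 : R)
    (h0 : G.eval c0 ∈ w) (h1 : G.derivative.eval c0 ∉ w) (n : ℕ) :
    ∃ c : R, c - c0 ∈ w ∧ G.eval c ∈ w ^ (n + 1) := by
  induction n with
  | zero => exact ⟨c0, by rw [sub_self]; exact w.zero_mem, by simpa using h0⟩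
  | succ n ih =>
    obtain ⟨c, hc, hGc⟩ := ih
    have hd : G.derivative.eval c ∉ w := by
      intro h
      apply h1
      have h3 : G.derivative.eval c - G.derivative.eval c0 ∈ w :=
        Ideal.mem_of_dvd w (sub_dvd_eval_sub c c0 G.derivative) hc
      have h4 := w.sub_mem h h3
      rwa [sub_sub_cancel] at h4
    obtain ⟨u, hu⟩ : ∃ u : R, 1 - u * G.derivative.eval c ∈ w := by
      obtain ⟨u, i, hi, hui⟩ := hw.exists_inv hd
      refine ⟨u, ?_⟩
      rw [← hui, add_sub_cancel_left]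
      exact hi
    obtain ⟨k, hk⟩ := G.binomExpansion c (-(u * G.eval c))
    have hGw : G.eval c ∈ w := Ideal.pow_le_self (Nat.succ_ne_zero n) hGc
    refine ⟨c + -(u * G.eval c), ?_, ?_⟩
    · have e : c + -(u * G.eval c) - c0 = (c - c0) - u * G.eval c := by ring
      rw [e]
      exact w.sub_mem hc (w.mul_mem_left _ hGw)
    · rw [hk]
      have e : eval c G + eval c (derivative G) * -(u * eval c G) + k * (-(u * eval c G)) ^ 2 =
          eval c G * (1 - u * G.derivative.eval c) + k * u ^ 2 * (eval c G * eval c G) := by ring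
      rw [e]
      refine Ideal.add_mem _ ?_ (Ideal.mul_mem_left _ _ ?_)
      · rw [pow_succ]
        exact Ideal.mul_mem_mul hGc hu
      · rw [pow_succ]
        exact Ideal.mul_mem_mul hGc hGw

end Pool.Agent.L0h55.SP.G
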