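import Pool.Agent.L0h94.SP.StmB
import Pool.Agent.N459.PF.Ram
import Pool.Agent.L0h55.SP.GPXa

/-!
# Project SP (helper94), part GPX, by helper55: elliptic curves, primes not dividing `2 D`: a class
with even valuations and square norm comes from a point of the twist by `D`
-/

set_option autoImplicit false
set_option linter.all false

open Polynomial IsDedekindDomain NumberField
open scoped Classical

namespace Pool.Agent.L0h55.SP.G

open Pool.Agent.N783.PF
open Pool.Agent.N874.PP (Ev Sq1 U0)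
open Pool.Agent.L0h94.SP (S_RES1 S_RES2 S_UREP S_RT S_GPX)

section fld

variable {F L : Type} [Field F] [NumberField F] [Field L] [NumberField L] [Algebra F L]

/-- values of the polynomials at `ϑ` -/
noncomputable def E (F : Type) [Field F] [NumberField F] {L : Type} [Field L] [NumberField L]
    [Algebra F L] (ϑ : L) : (𝓞 F)[X] →+* L :=
  ((aeval ϑ : F[X] →ₐ[F] L) : F[X] →+* L).comp (mapRingHom (algebraMap (𝓞 F) F))

lemma E_apply (ϑ : L) (p : (𝓞 F)[X]) : E F ϑ p = aeval ϑ (fF p) := rfl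

lemma E_C (ϑ : L) (a : 𝓞 F) : E F ϑ (C a) = algebraMap F L (a : F) := by
  rw [E_apply, fF, Polynomial.map_C, aeval_C]

lemma E_X (ϑ : L) : E F ϑ X = ϑ := by
  rw [E_apply, fF, Polynomial.map_X, aeval_X]

lemma alg_eq (a : 𝓞 F) :
    algebraMap (𝓞 L) L (algebraMap (𝓞 F) (𝓞 L) a) = algebraMap F L (a : F) := rfl

lemma val_int (𝔓 : HeightOneSpectrum (𝓞 L)) (a : 𝓞 F) :
    𝔓.valuation L (algebraMap F L (a : F)) ≤ 1 := by
  rw [← alg_eq, 𝔓.valuation_of_algebraMap]
  exact 𝔓.intValuation_le_one _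

/-- data on the prime `𝔓` over `w` -/
structure Lo (w : HeightOneSpectrum (𝓞 F)) (𝔓 : HeightOneSpectrum (𝓞 L)) : Prop where
  ov : Ov w.asIdeal 𝔓
  le : ∀ x : F, w.valuation F x ≤ 1 → 𝔓.valuation L (algebraMap F L x) ≤ 1
  lt : ∀ x : F, w.valuation F x < 1 → 𝔓.valuation L (algebraMap F L x) < 1

lemma exists_lo {w : HeightOneSpectrum (𝓞 F)} {𝔓 : HeightOneSpectrum (𝓞 L)}
    (h : Ov w.asIdeal 𝔓) : Lo w 𝔓 := by
  obtain ⟨w', h1, h2, h3⟩ := Pool.Agent.N459.PF.lie F L 𝔓
  have h4 : w = w' := by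
    apply HeightOneSpectrum.ext
    exact w.isMaximal.eq_of_le w'.isPrime.ne_top fun a ha => (h2 a).2 (h a ha)
  subst h4
  exact ⟨h, fun x => (h3 x).1, fun x => (h3 x).2⟩

variable {w : HeightOneSpectrum (𝓞 F)} {𝔓 : HeightOneSpectrum (𝓞 L)}

lemma Lo.mem (h : Lo w 𝔓) {a : 𝓞 F} (ha : a ∈ w.asIdeal) :
    𝔓.valuation L (algebraMap F L (a : F)) < 1 :=
  h.lt _ ((HeightOneSpectrum.valuation_lt_one_iff_mem (K := F) w a).2 ha)

lemma Lo.notMem (h : Lo w 𝔓) {a : 𝓞 F} (ha : a ∉ w.asIdeal) :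
    𝔓.valuation L (algebraMap F L (a : F)) = 1 := by
  have h1 : w.valuation F (a : F) = 1 := by
    refine le_antisymm (HeightOneSpectrum.valuation_le_one (K := F) w a) (not_lt.1 fun h => ha ?_)
    exact (HeightOneSpectrum.valuation_lt_one_iff_mem (K := F) w a).1 h
  have h2 : algebraMap F L (a : F) ≠ 0 := by
    intro h0
    have h3 : (a : F) = 0 := (map_eq_zero (algebraMap F L)).1 h0
    rw [h3, map_zero] at h1
    exact zero_ne_one h1
  refine le_antisymm (h.le _ h1.le) ?_
  have h3 := h.le ((a : F)⁻¹) (by rw [map_inv₀, h1, inv_one])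
  rw [map_inv₀, map_inv₀] at h3
  exact (inv_le_one₀ (zero_lt_iff.2 ((Valuation.ne_zero_iff _).2 h2))).1 h3

section theta

variable {ϑ : L} (hint : IsIntegral ℤ ϑ)

include hint

lemma vE_le (𝔓 : HeightOneSpectrum (𝓞 L)) (p : (𝓞 F)[X]) : 𝔓.valuation L (E F ϑ p) ≤ 1 := by
  obtain ⟨t, ht⟩ : ∃ t : 𝓞 L, algebraMap (𝓞 L) L t = ϑ := ⟨⟨ϑ, hint⟩, rfl⟩
  have h2 : algebraMap (𝓞 L) L (aeval t p) = E F ϑ p := by
    rw [← aeval_algebraMap_apply, E_apply, fF, aeval_map_algebraMap, ht]
  rw [← h2]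
  exact HeightOneSpectrum.valuation_le_one (K := L) 𝔓 _

lemma vE_lt (h : Lo w 𝔓) {p : (𝓞 F)[X]} (hp : ∀ i, p.coeff i ∈ w.asIdeal) :
    𝔓.valuation L (E F ϑ p) < 1 := by
  have hϑ : 𝔓.valuation L ϑ ≤ 1 := by
    have := vE_le (F := F) hint 𝔓 X
    rwa [E_X] at this
  rw [E_apply, fF, aeval_map_algebraMap, aeval_eq_sum_range]
  refine Valuation.map_sum_lt _ one_ne_zero fun i _ => ?_
  rw [Algebra.smul_def, map_mul, map_pow]
  refine lt_of_le_of_lt (mul_le_mul' le_rfl (pow_le_one' hϑ i)) ?_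
  rw [mul_one]
  exact h.mem (hp i)

lemma vE_rd (h : Lo w 𝔓) {p q : (𝓞 F)[X]} (hp : rd w.asIdeal p = rd w.asIdeal q) :
    𝔓.valuation L (E F ϑ p - E F ϑ q) < 1 := by
  rw [← map_sub]
  refine vE_lt hint h fun i => ?_
  rw [coeff_sub, ← Ideal.Quotient.eq, ← coeff_map, ← coeff_map]
  exact congrArg (fun p => coeff p i) hp

lemma vE_dvd (h : Lo w 𝔓) {G p : (𝓞 F)[X]} (hG : E F ϑ G = 0)
    (hp : rd w.asIdeal G ∣ rd w.asIdeal p) : 𝔓.valuation L (E F ϑ p) < 1 := by
  obtain ⟨c, hc⟩ := hp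
  obtain ⟨c, rfl⟩ := Polynomial.map_surjective _ Ideal.Quotient.mk_surjective c
  have h1 : rd w.asIdeal p = rd w.asIdeal (G * c) := by
    rw [hc, rd, rd, Polynomial.map_mul]
  have h2 := vE_rd hint h h1
  rwa [map_mul, hG, zero_mul, sub_zero] at h2

/-- congruence of values at `ϑ` and at `c` -/
lemma vE_sub (𝔓 : HeightOneSpectrum (𝓞 L)) (p : (𝓞 F)[X]) (c : 𝓞 F) :
    𝔓.valuation L (E F ϑ p - algebraMap F L ((p.eval c : 𝓞 F) : F)) ≤
      𝔓.valuation L (ϑ - algebraMap F L (c : F)) := by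
  obtain ⟨q, hq⟩ : X - C c ∣ p - C (p.eval c) := X_sub_C_dvd_sub_C_eval
  have h1 := congrArg (E F ϑ) hq
  rw [map_sub, E_C, map_mul, map_sub, E_X, E_C] at h1
  rw [h1, map_mul]
  calc _ ≤ 𝔓.valuation L (ϑ - algebraMap F L (c : F)) * 1 := mul_le_mul' le_rfl (vE_le hint 𝔓 q)
    _ = _ := mul_one _

end theta

/-- the square class from the residue class, generic form -/
lemma sq1_of {y α t H s : L} (ht : t ≠ 0) (hH : H = α * t ^ 2)
    (h : 𝔓.valuation L (y * H - s ^ 2) < 𝔓.valuation L (y * H)) : Sq1 𝔓 (y * α) := by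
  obtain ⟨s', hs'⟩ := sq_of (𝔓.valuation L) ht hH h
  exact ⟨s', hs'⟩

/-- a point near a simple root -/
lemma exists_near (w : HeightOneSpectrum (𝓞 F)) (G : (𝓞 F)[X]) (c0 : 𝓞 F)
    (h0 : G.eval c0 ∈ w.asIdeal) (h1 : G.derivative.eval c0 ∉ w.asIdeal) :
    ∃ c z : 𝓞 F, c - c0 ∈ w.asIdeal ∧ z ∈ w.asIdeal ∧ z ≠ 0 ∧
      ∀ 𝔓 : HeightOneSpectrum (𝓞 L), Lo w 𝔓 →
        𝔓.valuation L (algebraMap F L ((G.eval c : 𝓞 F) : F)) ≤
          𝔓.valuation L (algebraMap F L (z : F)) ^ 3 := by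
  haveI := w.isMaximal
  obtain ⟨c, hc, hGc⟩ := hensel w.asIdeal G c0 h0 h1 2
  obtain ⟨z, hz⟩ := w.intValuation_exists_uniformizer
  have hz0 : z ≠ 0 := by
    rintro rfl
    rw [map_zero] at hz
    exact WithZero.exp_ne_zero hz.symm
  have hzw : z ∈ w.asIdeal := by
    rw [← w.intValuation_lt_one_iff_mem, hz, ← WithZero.exp_zero, WithZero.exp_lt_exp]
    omega
  refine ⟨c, z, hc, hzw, hz0, fun 𝔓 h => ?_⟩
  have hzF : (z : F) ≠ 0 := by exact_mod_cast hz0
  have hzL : algebraMap F L (z : F) ≠ 0 := (map_ne_zero (algebraMap F L)).2 hzF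
  have h3 : w.valuation F (((G.eval c : 𝓞 F) : F) / (z : F) ^ 3) ≤ 1 := by
    have e1 : w.valuation F ((G.eval c : 𝓞 F) : F) ≤ WithZero.exp (-(3 : ℕ) : ℤ) := by
      have e2 : w.valuation F ((G.eval c : 𝓞 F) : F) = w.intValuation (G.eval c) :=
        w.valuation_of_algebraMap _
      rw [e2, w.intValuation_le_pow_iff_mem]
      exact hGc
    have e3 : w.valuation F (z : F) = WithZero.exp (-1 : ℤ) := by
      rw [← hz]
      exact w.valuation_of_algebraMap _
    rw [map_div₀, map_pow, e3, ← WithZero.exp_nsmul]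
    refine div_le_one_of_le₀ ?_ zero_le
    refine e1.trans (le_of_eq ?_)
    congr 1
  have h4 := h.le _ h3
  rw [map_div₀, map_div₀, map_pow, map_pow] at h4
  have h5 : (0 : WithZero (Multiplicative ℤ)) < 𝔓.valuation L (algebraMap F L (z : F)) ^ 3 :=
    pow_pos (zero_lt_iff.2 ((Valuation.ne_zero_iff _).2 hzL)) 3
  rwa [div_le_one₀ h5] at h4

lemma fF_scale {f : (𝓞 F)[X]} (hm : f.Monic) (D : ℕ) :
    fF (f.scaleRoots ((D : ℕ) : 𝓞 F)) = (fF f).scaleRoots ((D : ℕ) : F) := by
  unfold fF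
  rw [map_scaleRoots]
  · simp
  · rw [hm.leadingCoeff]
    simp

lemma root_scale {f : (𝓞 F)[X]} (hm : f.Monic) (D : ℕ) {θ : L} (h : aeval θ (fF f) = 0) :
    aeval ((D : L) * θ) (fF (f.scaleRoots ((D : ℕ) : 𝓞 F))) = 0 := by
  rw [fF_scale hm]
  have h1 := scaleRoots_aeval_eq_zero (p := fF f) (a := θ) (r := (D : F)) h
  have e1 : (D : L) = algebraMap F L (D : F) := by simp
  rw [e1]
  exact h1

/-- the norm is the square of an integer -/
lemma norm_red {f : (𝓞 F)[X]} {θ : L} (hG : IsGen 1 f θ) {D : ℕ} (hD : D ≠ 0) (h : (𝓞 F)[X])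
    (hs : IsSquare (Algebra.norm F (aeval ((D : L) * θ) (fF h)))) :
    ∃ y : 𝓞 F, (M3 (f.scaleRoots ((D : ℕ) : 𝓞 F)) h).det = y ^ 2 := by
  have hm : (f.scaleRoots ((D : ℕ) : 𝓞 F)).Monic := (monic_scaleRoots_iff _).2 hG.mon
  have hd : (f.scaleRoots ((D : ℕ) : 𝓞 F)).natDegree = 3 := by
    rw [natDegree_scaleRoots, hG.deg]
  have hDF : (D : F) ≠ 0 := by exact_mod_cast hD
  let b' : Module.Basis (Fin (2 * 1 + 1)) F L :=
    hG.basis.isUnitSMul (w := fun i => (D : F) ^ (i : ℕ))
      fun i => isUnit_iff_ne_zero.2 (pow_ne_zero _ hDF)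
  have hb' : ∀ i, b' i = ((D : L) * θ) ^ (i : ℕ) := by
    intro i
    rw [Module.Basis.isUnitSMul_apply, hG.basis_apply, Algebra.smul_def, mul_pow]
    simp
  have h1 := norm_gen (f := fF (f.scaleRoots ((D : ℕ) : 𝓞 F))) (hm.map _)
    (by rw [hm.natDegree_map, hd]) (b' : Module.Basis (Fin 3) F L) ((D : L) * θ) hb'
    (root_scale hG.mon D hG.root) (fF h)
  rw [fF, fF, M3_map (algebraMap (𝓞 F) F) hm] at h1
  obtain ⟨r, hr⟩ := hs
  have h2 : r ^ 2 = algebraMap (𝓞 F) F (M3 (f.scaleRoots ((D : ℕ) : 𝓞 F)) h).det := by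
    rw [← h1, sq]
    exact hr.symm
  have e4 : IsIntegral (𝓞 F) r := by
    refine IsIntegral.of_pow (n := 2) (by norm_num) ?_
    rw [h2]
    exact isIntegral_algebraMap
  obtain ⟨c, hc⟩ := IsIntegrallyClosed.isIntegral_iff.1 e4
  refine ⟨c, ?_⟩
  apply IsFractionRing.injective (𝓞 F) F
  rw [← h2, map_pow, hc]

/-- **part GPX** -/
theorem t_GPX : S_RES1 → S_RES2 → S_UREP → S_RT → S_GPX := by
  intro hR1 hR2 hU hRT F L _ _ _ _ _ f θ hG hsq w hw2 D hD α hα hN hev
  obtain ⟨t, h, ht0, hth, hv1, hcop⟩ := hU 1 F L f θ le_rfl hG hsq w D hD α hα hev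
  have hD0 : D ≠ 0 := by
    rintro rfl
    exact hD (by rw [Nat.cast_zero]; exact w.asIdeal.zero_mem)
  haveI hmax := w.isMaximal
  set ϑ : L := (D : L) * θ with hϑ
  set G : (𝓞 F)[X] := f.scaleRoots ((D : ℕ) : 𝓞 F) with hGdef
  have hmG : G.Monic := (monic_scaleRoots_iff _).2 hG.mon
  have hdG : G.natDegree = 3 := by rw [hGdef, natDegree_scaleRoots, hG.deg]
  have hroot : E F ϑ G = 0 := root_scale hG.mon D hG.root
  have hint : IsIntegral ℤ ϑ := by
    have h1 : IsIntegral (𝓞 F) ϑ := by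
      refine ⟨G, hmG, ?_⟩
      have h2 := hroot
      rw [E_apply, fF, aeval_map_algebraMap] at h2
      exact h2
    exact isIntegral_trans (R := ℤ) (A := 𝓞 F) ϑ h1
  -- the representative
  set H : L := E F ϑ h with hH
  have hHα : H = α * t ^ 2 := hth
  have hvH : ∀ 𝔓 : HeightOneSpectrum (𝓞 L), Ov w.asIdeal 𝔓 → 𝔓.valuation L H = 1 := hv1
  obtain ⟨y, hy⟩ : ∃ y : 𝓞 F, (M3 G h).det = y ^ 2 := by
    refine norm_red hG hD0 h ?_
    have h1 : aeval ((D : L) * θ) (fF h) = α * t ^ 2 := hth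
    rw [h1, map_mul, map_pow]
    obtain ⟨r, hr⟩ := hN
    exact ⟨r * Algebra.norm F t, by rw [hr]; ring⟩
  -- the residue field
  letI : Field (𝓞 F ⧸ w.asIdeal) := Ideal.Quotient.field w.asIdeal
  haveI : Finite (𝓞 F ⧸ w.asIdeal) := w.asIdeal.finiteQuotientOfFreeOfNeBot w.ne_bot
  let π : 𝓞 F →+* 𝓞 F ⧸ w.asIdeal := Ideal.Quotient.mk w.asIdeal
  have hπ : ∀ a : 𝓞 F, π a = 0 ↔ a ∈ w.asIdeal := fun a => Ideal.Quotient.eq_zero_iff_mem
  have hπs : Function.Surjective π := Ideal.Quotient.mk_surjective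
  have h2k : (2 : 𝓞 F ⧸ w.asIdeal) ≠ 0 := by
    intro h0
    apply hw2
    rw [← hπ, map_ofNat]
    exact h0
  have hDk : π (D : 𝓞 F) ≠ 0 := by
    rw [Ne, hπ]
    exact hD
  have hmk : (rd w.asIdeal G).Monic := hmG.map _
  have hdk : (rd w.asIdeal G).natDegree = 3 := by rw [hmG.natDegree_map, hdG]
  have hscale : rd w.asIdeal G = (rd w.asIdeal f).scaleRoots (π (D : 𝓞 F)) := by
    rw [hGdef, rd, map_scaleRoots]
    rw [hG.mon.leadingCoeff, map_one]
    exact one_ne_zero
  have hdet : (M3 (rd w.asIdeal G) (rd w.asIdeal h)).det = π y ^ 2 := by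
    rw [rd, rd, M3_map _ hmG, hy, map_pow]
  have hev0 : ∀ (p : (𝓞 F)[X]) (a : 𝓞 F), (rd w.asIdeal p).eval (π a) = π (p.eval a) := by
    intro p a
    rw [rd, eval_map]
    exact eval₂_at_apply _ a
  -- from a congruence at every prime to the square class
  have fin1 : ∀ 𝔓 : HeightOneSpectrum (𝓞 L), Ov w.asIdeal 𝔓 → ∀ s : L,
      𝔓.valuation L (H - s ^ 2) < 1 → Sq1 𝔓 α := by
    intro 𝔓 hov s hs
    have h1 := sq1_of (𝔓 := 𝔓) (y := 1) (s := s) ht0 hHα (by
      rw [one_mul, hvH 𝔓 hov]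
      exact hs)
    rwa [one_mul] at h1
  have fin2 : ∀ 𝔓 : HeightOneSpectrum (𝓞 L), Ov w.asIdeal 𝔓 → ∀ (x : 𝓞 F) (s : L),
      𝔓.valuation L (algebraMap F L (x : F) - ϑ) = 1 →
      𝔓.valuation L ((algebraMap F L (x : F) - ϑ) * H - s ^ 2) < 1 →
      Sq1 𝔓 ((algebraMap F L (x : F) - ϑ) * α) := by
    intro 𝔓 hov x s hx hs
    refine sq1_of (𝔓 := 𝔓) (s := s) ht0 hHα ?_
    rw [map_mul, hx, hvH 𝔓 hov, mul_one]
    exact hs
  -- the square class near a simple root
  have near : ∀ (e : 𝓞 F), G.eval e ∈ w.asIdeal → G.derivative.eval e ∉ w.asIdeal →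
      (∀ 𝔓 : HeightOneSpectrum (𝓞 L), Lo w 𝔓 →
        (𝔓.valuation L (ϑ - algebraMap F L (e : F)) < 1 → ∃ s : L,
          𝔓.valuation L (H * algebraMap F L ((G.derivative.eval e : 𝓞 F) : F) - s ^ 2) < 1) ∧
        (𝔓.valuation L (ϑ - algebraMap F L (e : F)) = 1 → ∃ s : L,
          𝔓.valuation L ((algebraMap F L (e : F) - ϑ) * H - s ^ 2) < 1)) →
      ∃ x : F, ∀ 𝔓 : HeightOneSpectrum (𝓞 L), Ov w.asIdeal 𝔓 →
        Sq1 𝔓 ((algebraMap F L x - ϑ) * α) := by
    intro e he0 he1 hcl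
    obtain ⟨c, z, hc, hzw, hz0, hval⟩ := exists_near (L := L) w G e he0 he1
    have hdc : π (G.derivative.eval c) = π (G.derivative.eval e) := by
      rw [← hev0, ← hev0]
      congr 1
      exact Ideal.Quotient.eq.2 hc
    have hd1 : G.derivative.eval c ∉ w.asIdeal := by
      rw [← hπ, hdc, hπ]
      exact he1
    refine ⟨(c : F) + ((G.derivative.eval c : 𝓞 F) : F) * (z : F) ^ 2, fun 𝔓 hov => ?_⟩
    have lo := exists_lo (F := F) hov
    have hzL : algebraMap F L (z : F) ≠ 0 := by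
      refine (map_ne_zero (algebraMap F L)).2 ?_
      exact_mod_cast hz0
    have hx : algebraMap F L ((c : F) + ((G.derivative.eval c : 𝓞 F) : F) * (z : F) ^ 2) =
        algebraMap F L (c : F) + algebraMap F L ((G.derivative.eval c : 𝓞 F) : F) *
          algebraMap F L (z : F) ^ 2 := by
      rw [map_add, map_mul, map_pow]
    have hce : 𝔓.valuation L (algebraMap F L (c : F) - algebraMap F L (e : F)) < 1 := by
      have h1 := lo.mem hc
      rwa [← map_sub]
    have hcomp : 𝔓.valuation L (algebraMap F L ((G.derivative.eval c : 𝓞 F) : F) -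
        algebraMap F L ((G.derivative.eval e : 𝓞 F) : F)) < 1 := by
      have h1 : G.derivative.eval c - G.derivative.eval e ∈ w.asIdeal := by
        rw [← hπ, map_sub, hdc, sub_self]
      have h2 := lo.mem h1
      rwa [← map_sub]
    rw [hx]
    obtain ⟨hA, hB⟩ := hcl 𝔓 lo
    have hle : 𝔓.valuation L (ϑ - algebraMap F L (e : F)) ≤ 1 := by
      have := vE_le (F := F) hint 𝔓 (X - C e)
      rwa [map_sub, E_X, E_C] at this
    rcases hle.lt_or_eq with hlt | heq
    · -- near the root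
      obtain ⟨s, hs⟩ := hA hlt
      have hϑc : 𝔓.valuation L (ϑ - algebraMap F L (c : F)) < 1 := by
        have e1 : ϑ - algebraMap F L (c : F) = (ϑ - algebraMap F L (e : F)) -
            (algebraMap F L (c : F) - algebraMap F L (e : F)) := by ring
        rw [e1]
        exact lt_of_le_of_lt (Valuation.map_sub _ _ _) (max_lt hlt hce)
      refine sq1_of (𝔓 := 𝔓) (s := s * algebraMap F L (z : F)) ht0 hHα ?_
      refine near_root (𝔓.valuation L) (hvH 𝔓 hov) (lo.notMem hd1) hzL (lo.mem hzw) ?_ ?_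
      · -- the distance of the root
        obtain ⟨Q, hQ⟩ : X - C c ∣ G - C (G.eval c) := X_sub_C_dvd_sub_C_eval
        have h1 := congrArg (E F ϑ) hQ
        rw [map_sub, hroot, E_C, map_mul, map_sub, E_X, E_C] at h1
        have hder : G.derivative.eval c = Q.eval c := by
          have h2 := congrArg (fun p => (derivative p).eval c) hQ
          simpa using h2
        have hQv : 𝔓.valuation L (E F ϑ Q) = 1 := by
          have h2 := vE_sub hint 𝔓 Q c
          have h3 : 𝔓.valuation L (algebraMap F L ((Q.eval c : 𝓞 F) : F)) = 1 := by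
            rw [← hder]
            exact lo.notMem hd1
          have h4 : 𝔓.valuation L (E F ϑ Q - algebraMap F L ((Q.eval c : 𝓞 F) : F)) < 1 :=
            lt_of_le_of_lt h2 hϑc
          have h5 : E F ϑ Q = (E F ϑ Q - algebraMap F L ((Q.eval c : 𝓞 F) : F)) +
              algebraMap F L ((Q.eval c : 𝓞 F) : F) := by ring
          rw [h5, Valuation.map_add_eq_of_lt_right _ (by rw [h3]; exact h4), h3]
        have h6 := congrArg (𝔓.valuation L) h1
        rw [zero_sub, Valuation.map_neg, map_mul, hQv, mul_one] at h6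
        rw [Valuation.map_sub_swap, ← h6]
        exact hval 𝔓 lo
      · have e1 : H * algebraMap F L ((G.derivative.eval c : 𝓞 F) : F) - s ^ 2 =
            (H * algebraMap F L ((G.derivative.eval e : 𝓞 F) : F) - s ^ 2) +
            H * (algebraMap F L ((G.derivative.eval c : 𝓞 F) : F) -
              algebraMap F L ((G.derivative.eval e : 𝓞 F) : F)) := by ring
        rw [e1]
        refine lt_of_le_of_lt (Valuation.map_add _ _ _) (max_lt hs ?_)
        rw [map_mul, hvH 𝔓 hov, one_mul]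
        exact hcomp
    · obtain ⟨s, hs⟩ := hB heq
      refine sq1_of (𝔓 := 𝔓) (s := s) ht0 hHα ?_
      refine far_root (𝔓.valuation L) (hvH 𝔓 hov) ?_ (lo.mem hzw) (lo.notMem hd1).le ?_
      · have e1 : algebraMap F L (c : F) - ϑ = (algebraMap F L (c : F) - algebraMap F L (e : F)) +
            (algebraMap F L (e : F) - ϑ) := by ring
        have h3 : 𝔓.valuation L (algebraMap F L (e : F) - ϑ) = 1 := by
          rw [Valuation.map_sub_swap]
          exact heq
        rw [e1, Valuation.map_add_eq_of_lt_right _ (by rw [h3]; exact hce), h3]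
      · have e1 : (algebraMap F L (c : F) - ϑ) * H - s ^ 2 =
            ((algebraMap F L (e : F) - ϑ) * H - s ^ 2) +
            (algebraMap F L (c : F) - algebraMap F L (e : F)) * H := by ring
        rw [e1]
        refine lt_of_le_of_lt (Valuation.map_add _ _ _) (max_lt hs ?_)
        rw [map_mul, hvH 𝔓 hov, mul_one]
        exact hce
  rcases hRT F f hG.mon hG.deg w hw2 (hsq w.asIdeal w.isPrime w.ne_bot) with hsep | ⟨n0, e0, hne0, hfr⟩
  · -- separable reduction
    have hsG : (rd w.asIdeal G).Separable := by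
      rw [hscale]
      exact sep_scale hsep hDk
    have hnorm : IsSquare (Algebra.norm (𝓞 F ⧸ w.asIdeal)
        (AdjoinRoot.mk (rd w.asIdeal G) (rd w.asIdeal h))) := by
      rw [norm_adj hmk hdk, hdet]
      exact ⟨π y, sq _⟩
    rcases hR1 (𝓞 F ⧸ w.asIdeal) h2k (rd w.asIdeal G) (rd w.asIdeal h) hmk hdk hsG hcop hnorm with
      ⟨s, hs⟩ | ⟨x, s, hx, hs⟩ | ⟨e, s, he, hs⟩
    · left
      obtain ⟨s, rfl⟩ := Polynomial.map_surjective _ Ideal.Quotient.mk_surjective s
      intro 𝔓 hov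
      have lo := exists_lo (F := F) hov
      refine fin1 𝔓 hov (E F ϑ s) ?_
      have h1 : 𝔓.valuation L (E F ϑ (h - s ^ 2)) < 1 := by
        refine vE_dvd hint lo hroot ?_
        rw [rd, rd, Polynomial.map_sub, Polynomial.map_pow]
        exact hs
      rwa [map_sub, map_pow] at h1
    · right
      obtain ⟨x, rfl⟩ := hπs x
      obtain ⟨s, rfl⟩ := Polynomial.map_surjective _ Ideal.Quotient.mk_surjective s
      refine ⟨(x : F), fun 𝔓 hov => ?_⟩
      have lo := exists_lo (F := F) hov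
      refine fin2 𝔓 hov x (E F ϑ s) ?_ ?_
      · -- `x - ϑ` is a unit
        rw [hev0] at hx
        have hx' : G.eval x ∉ w.asIdeal := by rwa [← hπ]
        obtain ⟨Q, hQ⟩ : X - C x ∣ G - C (G.eval x) := X_sub_C_dvd_sub_C_eval
        have h1 := congrArg (E F ϑ) hQ
        rw [map_sub, hroot, E_C, map_mul, map_sub, E_X, E_C] at h1
        have h6 := congrArg (𝔓.valuation L) h1
        rw [zero_sub, Valuation.map_neg, map_mul, lo.notMem hx'] at h6
        have h7 : 𝔓.valuation L (ϑ - algebraMap F L (x : F)) ≤ 1 := by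
          have := vE_le (F := F) hint 𝔓 (X - C x)
          rwa [map_sub, E_X, E_C] at this
        rw [Valuation.map_sub_swap]
        refine le_antisymm h7 ?_
        rw [h6]
        calc _ ≤ 𝔓.valuation L (ϑ - algebraMap F L (x : F)) * 1 :=
              mul_le_mul' le_rfl (vE_le hint 𝔓 Q)
          _ = _ := mul_one _
      · have h1 : 𝔓.valuation L (E F ϑ (h * (C x - X) - s ^ 2)) < 1 := by
          refine vE_dvd hint lo hroot ?_
          rw [rd, rd, Polynomial.map_sub, Polynomial.map_pow, Polynomial.map_mul,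
            Polynomial.map_sub, Polynomial.map_C, Polynomial.map_X]
          exact hs
        rw [map_sub (E F ϑ), map_pow, map_mul (E F ϑ), map_sub (E F ϑ), E_C, E_X] at h1
        rwa [mul_comm (algebraMap F L (x : F) - ϑ) H]
    · right
      obtain ⟨e, rfl⟩ := hπs e
      obtain ⟨s, rfl⟩ := Polynomial.map_surjective _ Ideal.Quotient.mk_surjective s
      have he0 : G.eval e ∈ w.asIdeal := by
        rw [← hπ, ← hev0]
        exact he
      have he1 : G.derivative.eval e ∉ w.asIdeal := by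
        intro h0
        rw [← hπ, ← hev0] at h0
        obtain ⟨u, v, huv⟩ := hsG
        have h1 := congrArg (Polynomial.eval (π e)) huv
        rw [eval_add, eval_mul, eval_mul, eval_one, he, mul_zero, zero_add] at h1
        have h3 : (derivative (rd w.asIdeal G)).eval (π e) = 0 := by
          rw [rd, derivative_map]
          exact h0
        rw [h3, mul_zero] at h1
        exact zero_ne_one h1
      refine near e he0 he1 fun 𝔓 lo => ?_
      obtain ⟨Q, hQ⟩ : X - C e ∣ G - C (G.eval e) := X_sub_C_dvd_sub_C_eval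
      have hder : G.derivative.eval e = Q.eval e := by
        have h2 := congrArg (fun p => (derivative p).eval e) hQ
        simpa using h2
      have hQk : rd w.asIdeal G = (X - C (π e)) * rd w.asIdeal Q := by
        have h1 := congrArg (rd w.asIdeal) hQ
        rw [rd, rd, Polynomial.map_sub, Polynomial.map_C, Polynomial.map_mul, Polynomial.map_sub,
          Polynomial.map_X, Polynomial.map_C] at h1
        have h3 : (Ideal.Quotient.mk w.asIdeal) (G.eval e) = 0 := (hπ _).2 he0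
        rw [h3, C_0, sub_zero] at h1
        exact h1
      have hQd : rd w.asIdeal G /ₘ (X - C (π e)) = rd w.asIdeal Q := by
        rw [hQk]
        exact mul_divByMonic_cancel_left _ (monic_X_sub_C _)
      rw [hQd] at hs
      have h1 : 𝔓.valuation L (E F ϑ (h * (C e - X + Q) - s ^ 2)) < 1 := by
        refine vE_dvd hint lo hroot ?_
        rw [rd, rd, Polynomial.map_sub, Polynomial.map_pow, Polynomial.map_mul,
          Polynomial.map_add, Polynomial.map_sub, Polynomial.map_C, Polynomial.map_X]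
        exact hs
      rw [map_sub (E F ϑ), map_pow, map_mul (E F ϑ), map_add (E F ϑ), map_sub (E F ϑ), E_C,
        E_X] at h1
      have hov := lo.ov
      constructor
      · intro hlt
        refine ⟨E F ϑ s, ?_⟩
        have h2 := vE_sub hint 𝔓 Q e
        rw [← hder] at h2
        have e1 : H * algebraMap F L ((G.derivative.eval e : 𝓞 F) : F) - E F ϑ s ^ 2 =
            (H * (algebraMap F L (e : F) - ϑ + E F ϑ Q) - E F ϑ s ^ 2) +
            (H * (ϑ - algebraMap F L (e : F)) -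
            H * (E F ϑ Q - algebraMap F L ((G.derivative.eval e : 𝓞 F) : F))) := by ring
        rw [e1]
        refine lt_of_le_of_lt (Valuation.map_add _ _ _) (max_lt h1 ?_)
        refine lt_of_le_of_lt (Valuation.map_sub _ _ _) (max_lt ?_ ?_)
        · rw [map_mul, hvH 𝔓 hov, one_mul]
          exact hlt
        · rw [map_mul, hvH 𝔓 hov, one_mul]
          exact lt_of_le_of_lt h2 hlt
      · intro heq
        refine ⟨E F ϑ s, ?_⟩
        have hQlt : 𝔓.valuation L (E F ϑ Q) < 1 := by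
          have h3 := congrArg (E F ϑ) hQ
          rw [map_sub, hroot, E_C, map_mul, map_sub, E_X, E_C] at h3
          have h6 := congrArg (𝔓.valuation L) h3
          rw [zero_sub, Valuation.map_neg, map_mul, heq, one_mul] at h6
          rw [← h6]
          exact lo.mem he0
        have e1 : (algebraMap F L (e : F) - ϑ) * H - E F ϑ s ^ 2 =
            (H * (algebraMap F L (e : F) - ϑ + E F ϑ Q) - E F ϑ s ^ 2) - H * E F ϑ Q := by ring
        rw [e1]
        refine lt_of_le_of_lt (Valuation.map_sub _ _ _) (max_lt h1 ?_)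
        rw [map_mul, hvH 𝔓 hov, one_mul]
        exact hQlt
  · -- a double root
    set n : 𝓞 F := (D : 𝓞 F) * n0 with hn
    set e : 𝓞 F := (D : 𝓞 F) * e0 with he
    have hGr : rd w.asIdeal G = (X - C (π n)) ^ 2 * (X - C (π e)) := by
      have hlin : ∀ a : 𝓞 F, (X - C (π a)).scaleRoots (π (D : 𝓞 F)) = X - C (π ((D : 𝓞 F) * a)) := by
        intro a
        ext i
        rw [coeff_scaleRoots, natDegree_X_sub_C, coeff_sub, coeff_sub, coeff_C, coeff_C, coeff_X,
          map_mul]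
        rcases i with _ | _ | i
        · simp [mul_comm]
        · simp
        · simp [coeff_X]
      have h1 : rd w.asIdeal f = (X - C (π n0)) ^ 2 * (X - C (π e0)) := by
        rw [hfr, rd, Polynomial.map_mul, Polynomial.map_pow, Polynomial.map_sub,
          Polynomial.map_sub, Polynomial.map_X, Polynomial.map_C, Polynomial.map_C]
      rw [hscale, h1, mul_scaleRoots_of_noZeroDivisors, sq, mul_scaleRoots_of_noZeroDivisors,
        hlin, hlin, ← sq]
    have hen : e - n ∉ w.asIdeal := by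
      have e1 : e - n = (D : 𝓞 F) * (e0 - n0) := by rw [he, hn]; ring
      rw [e1]
      intro h0
      rcases w.isPrime.mem_or_mem h0 with h1 | h1
      · exact hD h1
      · exact hne0 h1
    have henk : π e ≠ π n := by
      intro h0
      apply hen
      rw [← hπ, map_sub, h0, sub_self]
    have hcopr : ∀ a : 𝓞 F, (rd w.asIdeal G).eval (π a) = 0 → π (h.eval a) ≠ 0 := by
      intro a ha h0
      obtain ⟨u, v, huv⟩ := hcop
      have h1 := congrArg (Polynomial.eval (π a)) huv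
      rw [eval_add, eval_mul, eval_mul, eval_one, hev0 h, h0, mul_zero, zero_add] at h1
      rw [show (rd w.asIdeal (f.scaleRoots ((D : ℕ) : 𝓞 F))).eval (π a) = 0 from ha, mul_zero] at h1
      exact zero_ne_one h1
    have ha0 : π (h.eval n) ≠ 0 := hcopr n (by rw [hGr]; simp)
    have hb0 : π (h.eval e) ≠ 0 := hcopr e (by rw [hGr]; simp)
    have hbsq : IsSquare (π (h.eval e)) := by
      rw [hGr, det_double, hev0, hev0] at hdet
      refine ⟨π y / π (h.eval n), ?_⟩
      field_simp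
      linear_combination hdet
    obtain ⟨b, hb⟩ := hbsq
    obtain ⟨b, rfl⟩ := hπs b
    have hbmem : h.eval e - b ^ 2 ∈ w.asIdeal := by
      rw [← hπ, map_sub, map_pow, hb, sq, sub_self]
    -- the primes over `w`
    have hcase : ∀ 𝔓 : HeightOneSpectrum (𝓞 L), Lo w 𝔓 →
        𝔓.valuation L (ϑ - algebraMap F L (n : F)) < 1 ∨
        𝔓.valuation L (ϑ - algebraMap F L (e : F)) < 1 := by
      intro 𝔓 lo
      have h1 : 𝔓.valuation L (E F ϑ ((X - C n) ^ 2 * (X - C e))) < 1 := by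
        refine vE_dvd hint lo hroot ?_
        rw [hGr, rd, Polynomial.map_mul, Polynomial.map_pow, Polynomial.map_sub,
          Polynomial.map_sub, Polynomial.map_X, Polynomial.map_C, Polynomial.map_C]
      by_contra hcon
      push Not at hcon
      obtain ⟨h2, h3⟩ := hcon
      rw [map_mul, map_pow, map_sub, map_sub, E_X, E_C, E_C, map_mul, map_pow] at h1
      exact absurd h1 (not_lt.2 (one_le_mul (one_le_pow₀ h2) h3))
    have hexcl : ∀ 𝔓 : HeightOneSpectrum (𝓞 L), Lo w 𝔓 →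
        𝔓.valuation L (algebraMap F L (e : F) - algebraMap F L (n : F)) = 1 := by
      intro 𝔓 lo
      have h1 := lo.notMem hen
      rwa [← map_sub]
    -- values of `h` at the roots
    have hval : ∀ 𝔓 : HeightOneSpectrum (𝓞 L), ∀ a : 𝓞 F,
        𝔓.valuation L (ϑ - algebraMap F L (a : F)) < 1 →
        𝔓.valuation L (H - algebraMap F L ((h.eval a : 𝓞 F) : F)) < 1 := fun 𝔓 a ha =>
      lt_of_le_of_lt (vE_sub hint 𝔓 h a) ha
    have cong1 : ∀ 𝔓 : HeightOneSpectrum (𝓞 L), Lo w 𝔓 → ∀ a s : 𝓞 F,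
        𝔓.valuation L (ϑ - algebraMap F L (a : F)) < 1 → h.eval a - s ^ 2 ∈ w.asIdeal →
        𝔓.valuation L (H - algebraMap F L (s : F) ^ 2) < 1 := by
      intro 𝔓 lo a s ha hs
      have h1 := lo.mem hs
      have e1 : H - algebraMap F L (s : F) ^ 2 = (H - algebraMap F L ((h.eval a : 𝓞 F) : F)) +
          algebraMap F L ((h.eval a - s ^ 2 : 𝓞 F) : F) := by
        simp only [map_sub, map_pow]
        ring
      rw [e1]
      exact lt_of_le_of_lt (Valuation.map_add _ _ _) (max_lt (hval 𝔓 a ha) h1)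
    have cong2 : ∀ 𝔓 : HeightOneSpectrum (𝓞 L), Lo w 𝔓 → ∀ x a s : 𝓞 F,
        𝔓.valuation L (ϑ - algebraMap F L (a : F)) < 1 →
        (x - a) * h.eval a - s ^ 2 ∈ w.asIdeal →
        𝔓.valuation L ((algebraMap F L (x : F) - ϑ) * H - algebraMap F L (s : F) ^ 2) < 1 := by
      intro 𝔓 lo x a s ha hs
      have h1 := lo.mem hs
      have h3 : 𝔓.valuation L (algebraMap F L (x : F) - algebraMap F L (a : F)) ≤ 1 := by
        rw [← map_sub]
        exact val_int (F := F) 𝔓 (x - a)
      have e1 : (algebraMap F L (x : F) - ϑ) * H - algebraMap F L (s : F) ^ 2 =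
          algebraMap F L (((x - a) * h.eval a - s ^ 2 : 𝓞 F) : F) +
          ((algebraMap F L (x : F) - algebraMap F L (a : F)) *
            (H - algebraMap F L ((h.eval a : 𝓞 F) : F)) -
            (ϑ - algebraMap F L (a : F)) * H) := by
        simp only [map_sub, map_pow, map_mul]
        ring
      rw [e1]
      refine lt_of_le_of_lt (Valuation.map_add _ _ _) (max_lt h1 ?_)
      refine lt_of_le_of_lt (Valuation.map_sub _ _ _) (max_lt ?_ ?_)
      · rw [map_mul]
        exact lt_of_le_of_lt (mul_le_mul' h3 le_rfl) (by rw [one_mul]; exact hval 𝔓 a ha)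
      · rw [map_mul, hvH 𝔓 lo.ov, mul_one]
        exact ha
    have sqmem : ∀ c s : 𝓞 F, π c = π s * π s → c - s ^ 2 ∈ w.asIdeal := by
      intro c s hcs
      rw [← hπ, map_sub, map_pow, hcs, sq, sub_self]
    rcases hR2 (𝓞 F ⧸ w.asIdeal) h2k (π n) (π e) (π (h.eval n)) (π (h.eval e)) henk ha0 hb0
      ⟨π b, hb⟩ with ⟨s, hs⟩ | ⟨x, hxn, hxe, ⟨r, hr⟩, ⟨s, hs⟩⟩ | ⟨s, hs⟩
    · left
      obtain ⟨s, rfl⟩ := hπs s
      intro 𝔓 hov
      have lo := exists_lo (F := F) hov
      rcases hcase 𝔓 lo with h1 | h1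
      · exact fin1 𝔓 hov _ (cong1 𝔓 lo n s h1 (sqmem _ _ hs))
      · exact fin1 𝔓 hov _ (cong1 𝔓 lo e b h1 hbmem)
    · right
      obtain ⟨x, rfl⟩ := hπs x
      obtain ⟨r, rfl⟩ := hπs r
      obtain ⟨s, rfl⟩ := hπs s
      refine ⟨(x : F), fun 𝔓 hov => ?_⟩
      have lo := exists_lo (F := F) hov
      have hunit : ∀ a : 𝓞 F, π x ≠ π a → 𝔓.valuation L (ϑ - algebraMap F L (a : F)) < 1 →
          𝔓.valuation L (algebraMap F L (x : F) - ϑ) = 1 := by
        intro a hxa ha
        have h1 : x - a ∉ w.asIdeal := by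
          rw [← hπ, map_sub, sub_eq_zero]
          exact hxa
        have h2 : 𝔓.valuation L (algebraMap F L (x : F) - algebraMap F L (a : F)) = 1 := by
          rw [← map_sub]
          exact lo.notMem h1
        have e1 : algebraMap F L (x : F) - ϑ = -(ϑ - algebraMap F L (a : F)) +
            (algebraMap F L (x : F) - algebraMap F L (a : F)) := by ring
        rw [e1, Valuation.map_add_eq_of_lt_right _ (by rw [h2, Valuation.map_neg]; exact ha), h2]
      rcases hcase 𝔓 lo with h1 | h1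
      · refine fin2 𝔓 hov x _ (hunit n hxn h1) (cong2 𝔓 lo x n s h1 (sqmem _ _ ?_))
        rw [map_mul, map_sub]
        exact hs
      · refine fin2 𝔓 hov x _ (hunit e hxe h1) (cong2 𝔓 lo x e r h1 (sqmem _ _ ?_))
        rw [map_mul, map_sub]
        exact hr
    · right
      obtain ⟨s, rfl⟩ := hπs s
      have he0 : G.eval e ∈ w.asIdeal := by
        rw [← hπ, ← hev0, hGr]
        simp
      have hder : π (G.derivative.eval e) = (π e - π n) ^ 2 := by
        rw [← hev0, rd, ← derivative_map]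
        show (derivative (rd w.asIdeal G)).eval (π e) = _
        rw [hGr, derivative_mul]
        simp
      have he1 : G.derivative.eval e ∉ w.asIdeal := by
        rw [← hπ, hder]
        exact pow_ne_zero 2 (sub_ne_zero.2 henk)
      refine near e he0 he1 fun 𝔓 lo => ⟨fun hlt => ?_, fun heq => ?_⟩
      · refine ⟨algebraMap F L (((b * (e - n) : 𝓞 F)) : F), ?_⟩
        have h1 : h.eval e * G.derivative.eval e - (b * (e - n)) ^ 2 ∈ w.asIdeal := by
          rw [← hπ, map_sub, map_mul, hder, map_pow, map_mul π b (e - n), map_sub π e n, hb]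
          ring
        have h2 := lo.mem h1
        have e1 : H * algebraMap F L ((G.derivative.eval e : 𝓞 F) : F) -
            algebraMap F L (((b * (e - n) : 𝓞 F)) : F) ^ 2 =
            algebraMap F L ((h.eval e * G.derivative.eval e - (b * (e - n)) ^ 2 : 𝓞 F) : F) +
            (H - algebraMap F L ((h.eval e : 𝓞 F) : F)) *
              algebraMap F L ((G.derivative.eval e : 𝓞 F) : F) := by
          simp only [map_sub, map_pow, map_mul]
          ring
        rw [e1]
        refine lt_of_le_of_lt (Valuation.map_add _ _ _) (max_lt h2 ?_)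
        rw [map_mul, lo.notMem he1, mul_one]
        exact hval 𝔓 e hlt
      · have h1 : 𝔓.valuation L (ϑ - algebraMap F L (n : F)) < 1 :=
          (hcase 𝔓 lo).resolve_right (by rw [heq]; exact lt_irrefl _)
        refine ⟨algebraMap F L (s : F), cong2 𝔓 lo e n s h1 (sqmem _ _ ?_)⟩
        rw [map_mul, map_sub]
        exact hs

end fld

end Pool.Agent.L0h55.SP.G
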